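import Pool.Agent.Lib.MP_252578_ntA.Pai

/-!
# Assembly: the parameters
-/

set_option autoImplicit false

namespace Pool.Agent.Lib.MP_252578_ntA

open Finset Filter

theorem cheb {x : ℝ} (hx : 100 ≤ x) : x / Real.log x ≤ 2 * (Nat.primeCounting ⌊x⌋₊ : ℝ) := by
  have h1 := Chebyshev.pi_ge' (show 1 < x by linarith)
  have hL : 0 < Real.log x := Real.log_pos (by linarith)
  have h2 : Real.log (x + 2) ≤ (x + 2) / 20 + 2 := by
    have h3 := Real.log_le_sub_one_of_pos (show 0 < (x + 2) / 20 by linarith)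
    rw [Real.log_div (by linarith) (by norm_num)] at h3
    have h4 : Real.log 20 ≤ 3 := by
      have h5 : (20 : ℝ) ≤ Real.exp 3 := by
        have h6 := Real.exp_one_gt_d9
        have h7 : Real.exp 3 = Real.exp 1 ^ 3 := by
          rw [← Real.exp_nat_mul]
          norm_num
        rw [h7]
        have h8 : (2.718 : ℝ) ^ 3 ≤ Real.exp 1 ^ 3 := pow_le_pow_left₀ (by norm_num) (by linarith) 3
        norm_num at h8
        linarith
      rw [Real.log_le_iff_le_exp (by norm_num)]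
      exact h5
    linarith
  have h3 := Real.log_two_gt_d9
  have h4 : x / (2 * Real.log x) ≤ ((x - 1) * Real.log 2 - Real.log (x + 2)) / Real.log x := by
    rw [div_le_div_iff₀ (by positivity) hL]
    have h5 : x ≤ ((x - 1) * Real.log 2 - Real.log (x + 2)) * 2 := by nlinarith
    nlinarith
  have h5 := h4.trans h1
  have h6 : x / Real.log x = 2 * (x / (2 * Real.log x)) := by
    field_simp
  rw [h6]
  linarith

/-- the choice of `z` -/
private theorem Asm_z {K : ℕ} (hK : 1 ≤ K) {x : ℝ} (hx : (2 : ℝ) ^ (4 * K) ≤ x) :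
    ∃ z : ℕ, 2 ≤ z ∧ (z : ℝ) ^ (2 * K) ≤ Real.sqrt x ∧ 1 / Real.log z ≤ 8 * K / Real.log x := by
  have hx1 : (1 : ℝ) < x := by
    have h1 : (1 : ℝ) < 2 ^ (4 * K) := one_lt_pow₀ (by norm_num) (by omega)
    linarith
  have hx0 : (0 : ℝ) < x := by linarith
  have hK0 : (0 : ℝ) < K := by exact_mod_cast hK
  have hL : 0 < Real.log x := Real.log_pos hx1
  obtain ⟨y, hy⟩ : ∃ y : ℝ, y = x ^ (1 / (4 * K : ℝ)) := ⟨_, rfl⟩
  have hy0 : 0 < y := by rw [hy]; exact Real.rpow_pos_of_pos hx0 _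
  have hyK : y ^ (4 * K) = x := by
    rw [hy, ← Real.rpow_natCast, ← Real.rpow_mul hx0.le]
    have : 1 / (4 * (K : ℝ)) * ((4 * K : ℕ) : ℝ) = 1 := by
      push_cast
      field_simp
    rw [this, Real.rpow_one]
  have hy2 : 2 ≤ y := by
    by_contra h
    push Not at h
    have h1 : y ^ (4 * K) < 2 ^ (4 * K) := pow_lt_pow_left₀ h hy0.le (by omega)
    linarith
  have hlogy : Real.log x = 4 * K * Real.log y := by
    rw [← hyK, Real.log_pow]
    push_cast
    ring
  have hlogy0 : 0 < Real.log y := Real.log_pos (by linarith)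
  have hz2 : 2 ≤ ⌊y⌋₊ := Nat.le_floor (by exact_mod_cast hy2)
  have hzy : ((⌊y⌋₊ : ℕ) : ℝ) ≤ y := Nat.floor_le hy0.le
  refine ⟨⌊y⌋₊, hz2, ?_, ?_⟩
  · refine Real.le_sqrt_of_sq_le ?_
    calc (((⌊y⌋₊ : ℕ) : ℝ) ^ (2 * K)) ^ 2 ≤ (y ^ (2 * K)) ^ 2 := by
          gcongr
      _ = y ^ (4 * K) := by rw [← pow_mul]; congr 1; ring
      _ = x := hyK
  · have hzr : (2 : ℝ) ≤ ((⌊y⌋₊ : ℕ) : ℝ) := by exact_mod_cast hz2
    have hlz : 0 < Real.log ((⌊y⌋₊ : ℕ) : ℝ) := Real.log_pos (by linarith)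
    have h1 : y < ((⌊y⌋₊ : ℕ) : ℝ) ^ 2 := by
      have h2 := Nat.lt_floor_add_one y
      nlinarith
    have h2 : Real.log y ≤ 2 * Real.log ((⌊y⌋₊ : ℕ) : ℝ) := by
      have h3 := Real.log_le_log hy0 h1.le
      rw [Real.log_pow] at h3
      push_cast at h3
      exact h3
    rw [hlogy, div_le_div_iff₀ hlz (by positivity)]
    nlinarith

private theorem Asm_evt (K : ℕ) :
    ∀ᶠ x : ℝ in atTop, 100 ≤ x ∧ (2 : ℝ) ^ (4 * K) ≤ x ∧ 2 * Real.log x ^ 3 ≤ Real.sqrt x ∧
      (Nat.primeCounting ⌊x⌋₊ : ℝ) ≤ 3 * (x / Real.log x) := by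
  have h1 : ∀ᶠ y : ℝ in atTop, ‖Real.log y ^ 3‖ ≤ 1 / 16 * ‖id y‖ :=
    (Real.isLittleO_pow_log_id_atTop (n := 3)).bound (by norm_num)
  have h3 := Real.tendsto_sqrt_atTop.eventually h1
  filter_upwards [eventually_ge_atTop 100, eventually_ge_atTop ((2 : ℝ) ^ (4 * K)), h3,
    Chebyshev.eventually_primeCounting_le (ε := 1) one_pos] with x hx1 hx2 hx5 hx6
  have hL : 0 < Real.log x := Real.log_pos (by linarith)
  refine ⟨hx1, hx2, ?_, ?_⟩
  · have hs : 0 ≤ Real.sqrt x := Real.sqrt_nonneg x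
    have hls : 0 ≤ Real.log (Real.sqrt x) := by
      rw [Real.log_sqrt (by linarith)]
      linarith
    rw [id, Real.norm_of_nonneg (pow_nonneg hls 3), Real.norm_of_nonneg hs, Real.log_sqrt (by linarith)] at hx5
    have e1 : (Real.log x / 2) ^ 3 = Real.log x ^ 3 / 8 := by ring
    rw [e1] at hx5
    linarith
  · refine hx6.trans ?_
    have h4 : Real.log 4 ≤ 2 := by
      have h5 := Real.log_two_lt_d9
      have h6 : Real.log 4 = 2 * Real.log 2 := by
        rw [show (4 : ℝ) = 2 ^ 2 by norm_num, Real.log_pow]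
        norm_num
      rw [h6]
      linarith
    rw [mul_div_assoc]
    refine mul_le_mul_of_nonneg_right (by linarith) ?_
    exact div_nonneg (by linarith) hL.le

theorem main_bound : ∃ C X : ℝ, 0 < C ∧ 100 ≤ X ∧ ∀ x ≥ X, ∀ q k : ℕ, q.Prime → 4 * (q : ℝ) ^ 2 ≤ Real.log x →
    1 ≤ k → ∀ S : Finset (ZMod q × ZMod q),
      (cnt q k S x : ℝ) ≤ C * (Real.sqrt (k * S.card) / q) * (x / Real.log x) := by
  classical
  obtain ⟨K, hK1, hK⟩ := pairs_sum
  obtain ⟨X, hX⟩ := eventually_atTop.1 (Asm_evt K)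
  refine ⟨3 + 12288 * (K : ℝ) ^ 2, max X 100, by positivity, le_max_right _ _, fun x hx q k hq hxq hk S => ?_⟩
  have : NeZero q := ⟨hq.ne_zero⟩
  obtain ⟨hx100, hxK, hx3, hxπ⟩ := hX x ((le_max_left _ _).trans hx)
  have hx0 : (0 : ℝ) < x := by linarith
  have hL : 0 < Real.log x := Real.log_pos (by linarith)
  have hq0 : (0 : ℝ) < q := by exact_mod_cast hq.pos
  have hq1 : (1 : ℝ) ≤ q := by exact_mod_cast hq.one_lt.le
  have hk0 : (0 : ℝ) < k := by exact_mod_cast hk
  have hk1 : (1 : ℝ) ≤ k := by exact_mod_cast hk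
  rcases S.eq_empty_or_nonempty with rfl | hS
  · have : cnt q k ∅ x = 0 := by
      unfold cnt
      simp
    rw [this]
    simp
  have hσ : (1 : ℝ) ≤ S.card := by exact_mod_cast hS.card_pos
  have hσ0 : (0 : ℝ) < S.card := by linarith
  have hσq : (S.card : ℝ) ≤ (q : ℝ) ^ 2 := by
    have h1 : S.card ≤ Fintype.card (ZMod q × ZMod q) := card_le_univ S
    rw [Fintype.card_prod, ZMod.card] at h1
    have h2 : ((S.card : ℕ) : ℝ) ≤ ((q * q : ℕ) : ℝ) := by exact_mod_cast h1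
    push_cast at h2
    rw [pow_two]
    exact h2
  obtain ⟨σ, hσd⟩ : ∃ σ : ℝ, σ = (S.card : ℝ) := ⟨_, rfl⟩
  rw [← hσd] at hσ hσ0 hσq ⊢
  by_cases hkq : (q : ℝ) ^ 2 < k
  · have h1 : (cnt q k S x : ℝ) ≤ Nat.primeCounting ⌊x⌋₊ := by
      unfold cnt
      have h2 := card_filter_le (range (Nat.primeCounting ⌊x⌋₊)) (fun n : ℕ =>
        (((Nat.nth Nat.Prime n : ℕ) : ZMod q), ((Nat.nth Nat.Prime (n + k) : ℕ) : ZMod q)) ∈ S)
      rw [card_range] at h2
      exact_mod_cast h2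
    have h2 : 1 ≤ Real.sqrt (k * σ) / q := by
      rw [le_div_iff₀ hq0, one_mul]
      refine Real.le_sqrt_of_sq_le ?_
      nlinarith
    have hxL : 0 ≤ x / Real.log x := div_nonneg hx0.le hL.le
    have h3 : 3 * 1 ≤ (3 + 12288 * (K : ℝ) ^ 2) * (Real.sqrt (k * σ) / q) := by
      refine mul_le_mul ?_ h2 zero_le_one (by positivity)
      have : 0 ≤ 12288 * (K : ℝ) ^ 2 := by positivity
      linarith
    have h4 := mul_le_mul_of_nonneg_right h3 hxL
    linarith
  push Not at hkq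
  have hxs : 6 * (q : ℝ) ^ 2 * Real.log x ^ 2 ≤ Real.sqrt x := by
    have h1 : 6 * (q : ℝ) ^ 2 * Real.log x ^ 2 ≤ 2 * Real.log x * Real.log x ^ 2 :=
      mul_le_mul_of_nonneg_right (by linarith) (by positivity)
    have h2 : 2 * Real.log x * Real.log x ^ 2 = 2 * Real.log x ^ 3 := by ring
    linarith
  have hxk : (k : ℝ) * q * Real.log x ≤ x := by
    have hq2 : (q : ℝ) ≤ (q : ℝ) ^ 2 := by nlinarith
    have h1 : (k : ℝ) * q ≤ (q : ℝ) ^ 2 * (q : ℝ) ^ 2 := mul_le_mul hkq hq2 hq0.le (by positivity)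
    have h2 : (q : ℝ) ^ 2 * (q : ℝ) ^ 2 ≤ Real.log x * Real.log x :=
      mul_le_mul (by nlinarith) (by nlinarith) (by positivity) hL.le
    have h3 : (k : ℝ) * q * Real.log x ≤ Real.log x * Real.log x * Real.log x :=
      mul_le_mul_of_nonneg_right (h1.trans h2) hL.le
    have h4 : Real.sqrt x ≤ x := by
      rw [Real.sqrt_le_left hx0.le]
      nlinarith
    have h5 : Real.log x * Real.log x * Real.log x = Real.log x ^ 3 := by ring
    have h6 : 0 ≤ Real.log x ^ 3 := by positivity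
    linarith
  -- `r = sqrt (k σ)`, `ρ = r / q`, `T = q k / r`
  obtain ⟨r, hr⟩ : ∃ r : ℝ, r = Real.sqrt (k * σ) := ⟨_, rfl⟩
  have hr0 : 0 < r := by rw [hr]; exact Real.sqrt_pos.2 (by positivity)
  have hr2 : r * r = k * σ := by rw [hr]; exact Real.mul_self_sqrt (by positivity)
  have hr1 : 1 ≤ r := by nlinarith
  have hrq : r ≤ q * k := by
    have h1 : r * r ≤ (q * k) * (q * k) := by
      rw [hr2]
      have h2 : k * σ ≤ k * (q : ℝ) ^ 2 := mul_le_mul_of_nonneg_left hσq hk0.le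
      nlinarith [mul_nonneg hk0.le (sq_nonneg (q : ℝ))]
    by_contra h
    push Not at h
    have h2 := mul_self_lt_mul_self (by positivity : (0 : ℝ) ≤ q * k) h
    linarith
  rw [← hr]
  obtain ⟨T, hT⟩ : ∃ T : ℝ, T = q * k / r := ⟨_, rfl⟩
  have hT1 : 1 ≤ T := by
    rw [hT, le_div_iff₀ hr0]
    linarith
  have hTr : T * r = q * k := by
    rw [hT]
    field_simp
  obtain ⟨H, hH⟩ : ∃ H : ℕ, H = ⌈T * Real.log x⌉₊ := ⟨_, rfl⟩
  have hTL : 1 ≤ T * Real.log x := by
    have : 1 ≤ Real.log x := by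
      have : (1 : ℝ) ≤ (q : ℝ) ^ 2 := one_le_pow₀ (by exact_mod_cast hq.one_lt.le)
      linarith
    nlinarith
  have hH1 : T * Real.log x ≤ H := by rw [hH]; exact Nat.le_ceil _
  have hH2 : (H : ℝ) ≤ 2 * (T * Real.log x) := by
    have h1 := Nat.ceil_lt_add_one (show 0 ≤ T * Real.log x by linarith)
    rw [← hH] at h1
    linarith
  have hH0 : (0 : ℝ) < H := by linarith
  have hHq : 4 * q ^ 2 ≤ H := by
    have h1 : 4 * (q : ℝ) ^ 2 ≤ H := by nlinarith
    exact_mod_cast h1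
  obtain ⟨z, hz2, hzK, hzl⟩ := Asm_z hK1 hxK
  have hzr : (2 : ℝ) ≤ z := by exact_mod_cast hz2
  have hlz : 0 < Real.log z := Real.log_pos (by linarith)
  obtain ⟨N, hN⟩ : ∃ N : ℕ, N = ⌊x⌋₊ := ⟨_, rfl⟩
  have hNx : (N : ℝ) ≤ x := by rw [hN]; exact Nat.floor_le hx0.le
  have hgap := gap_count nth_mono (N := Nat.primeCounting N) (X := N) (fun n hn => nth_le hn) k H
  have hcount := pairs_count hk S x H
  have hsum := hK z hz2 q N H hq hHq S
  rw [← hN] at hcount
  obtain ⟨G, hG⟩ : ∃ G : ℕ, G = ((range (Nat.primeCounting N)).filter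
    (fun n => Nat.nth Nat.Prime n + H < Nat.nth Nat.Prime (n + k))).card := ⟨_, rfl⟩
  rw [← hG] at hgap hcount
  have hgap' : (G : ℝ) ≤ r / q * (x / Real.log x) + k := by
    have h1 : (G : ℝ) * H ≤ k * N + k * H := by exact_mod_cast hgap
    have h2 : (G : ℝ) ≤ k * x / H + k := by
      have h3 : (G : ℝ) * H ≤ (k * x / H + k) * H := by
        have h4 : (k * x / (H : ℝ) + k) * H = k * x + k * H := by
          field_simp
        rw [h4]
        nlinarith
      exact le_of_mul_le_mul_right h3 hH0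
    have h3 : k * x / (H : ℝ) ≤ k * x / (T * Real.log x) :=
      div_le_div_of_nonneg_left (by positivity) (by linarith) hH1
    have h4 : k * x / (T * Real.log x) = r / q * (x / Real.log x) := by
      rw [hT]
      field_simp
    rw [h4] at h3
    linarith
  have hk' : (k : ℝ) ≤ r / q * (x / Real.log x) := by
    rw [div_mul_div_comm, le_div_iff₀ (by positivity)]
    have h1 : 1 * x ≤ r * x := mul_le_mul_of_nonneg_right hr1 hx0.le
    calc (k : ℝ) * (q * Real.log x) = k * q * Real.log x := by ring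
      _ ≤ x := hxk
      _ ≤ r * x := by linarith
  have hσT : σ * T = q * r := by
    have h1 : σ * T * r = q * r * r := by
      calc σ * T * r = σ * (T * r) := by ring
        _ = q * (k * σ) := by rw [hTr]; ring
        _ = q * r * r := by rw [← hr2]; ring
    exact mul_right_cancel₀ hr0.ne' h1
  have hs1 : (1 : ℝ) ≤ Real.sqrt x := by
    rw [show (1 : ℝ) = Real.sqrt 1 by rw [Real.sqrt_one]]
    exact Real.sqrt_le_sqrt (by linarith)
  have hzz : (z : ℝ) ≤ Real.sqrt x := by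
    refine le_trans ?_ hzK
    calc (z : ℝ) = (z : ℝ) ^ 1 := (pow_one _).symm
      _ ≤ (z : ℝ) ^ (2 * K) := pow_le_pow_right₀ (by linarith) (by omega)
  have hA : σ * (H * (1 + z + (z : ℝ) ^ (2 * K))) ≤ r / q * (x / Real.log x) := by
    have h1 : σ * (H * (1 + z + (z : ℝ) ^ (2 * K))) ≤ σ * (2 * (T * Real.log x) * (3 * Real.sqrt x)) := by
      refine mul_le_mul_of_nonneg_left ?_ hσ0.le
      refine mul_le_mul hH2 (by linarith) (by positivity) (by linarith)
    have h2 : σ * (2 * (T * Real.log x) * (3 * Real.sqrt x)) = 6 * (q * r) * Real.log x * Real.sqrt x := by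
      rw [← hσT]
      ring
    rw [h2] at h1
    refine h1.trans ?_
    rw [div_mul_div_comm, le_div_iff₀ (by positivity)]
    have h3 := Real.mul_self_sqrt hx0.le
    have h4 := mul_le_mul_of_nonneg_right hxs (mul_nonneg hr0.le (Real.sqrt_nonneg x))
    calc 6 * (q * r) * Real.log x * Real.sqrt x * (q * Real.log x)
        = 6 * (q : ℝ) ^ 2 * Real.log x ^ 2 * (r * Real.sqrt x) := by ring
      _ ≤ Real.sqrt x * (r * Real.sqrt x) := h4
      _ = r * (Real.sqrt x * Real.sqrt x) := by ring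
      _ = r * x := by rw [h3]
  have hB : σ * (96 * ((N : ℝ) * H / q ^ 2) * (1 / Real.log z) ^ 2) ≤
      12288 * (K : ℝ) ^ 2 * (r / q * (x / Real.log x)) := by
    have h1 : (1 / Real.log z) ^ 2 ≤ (8 * K / Real.log x) ^ 2 :=
      pow_le_pow_left₀ (by positivity) hzl 2
    have h2 : (N : ℝ) * H / q ^ 2 ≤ x * (2 * (T * Real.log x)) / q ^ 2 := by
      refine div_le_div_of_nonneg_right ?_ (by positivity)
      exact mul_le_mul hNx hH2 hH0.le hx0.le
    have h3 : σ * (96 * ((N : ℝ) * H / q ^ 2) * (1 / Real.log z) ^ 2) ≤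
        σ * (96 * (x * (2 * (T * Real.log x)) / q ^ 2) * (8 * K / Real.log x) ^ 2) := by
      refine mul_le_mul_of_nonneg_left ?_ hσ0.le
      refine mul_le_mul (mul_le_mul_of_nonneg_left h2 (by norm_num)) h1 (by positivity) ?_
      have : 0 ≤ T * Real.log x := by linarith
      positivity
    refine h3.trans (le_of_eq ?_)
    calc σ * (96 * (x * (2 * (T * Real.log x)) / q ^ 2) * (8 * K / Real.log x) ^ 2)
        = 12288 * (K : ℝ) ^ 2 * ((σ * T) * x * Real.log x / (q ^ 2 * Real.log x ^ 2)) := by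
          field_simp
          ring
      _ = 12288 * (K : ℝ) ^ 2 * (r / q * (x / Real.log x)) := by
          rw [hσT]
          field_simp
  have hcount' : (cnt q k S x : ℝ) ≤ G + (σ * (H * (1 + z + (z : ℝ) ^ (2 * K))) +
      σ * (96 * ((N : ℝ) * H / q ^ 2) * (1 / Real.log z) ^ 2)) := by
    have h1 : (cnt q k S x : ℝ) ≤ (G : ℝ) + ((∑ s ∈ S, ∑ h ∈ (Icc 1 H).filter
        (fun h : ℕ => (h : ZMod q) = s.2 - s.1), (ZZ q N h s.1).card : ℕ) : ℝ) := by
      exact_mod_cast hcount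
    rw [← hσd, mul_add] at hsum
    linarith
  have hfin : (3 + 12288 * (K : ℝ) ^ 2) * (r / q) * (x / Real.log x) =
      r / q * (x / Real.log x) + r / q * (x / Real.log x) + r / q * (x / Real.log x) +
        12288 * (K : ℝ) ^ 2 * (r / q * (x / Real.log x)) := by ring
  rw [hfin]
  linarith

end Pool.Agent.Lib.MP_252578_ntA
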