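import Pool.Agent.Lib.MP_252578_ntA.Prd

/-!
# The average of `∑_{d ∣ h} 1/d` over the `h ≤ H` in a residue class modulo `q`
-/

set_option autoImplicit false

namespace Pool.Agent.Lib.MP_252578_ntA

open Finset

private theorem Avg_sq (n : ℕ) : ∑ d ∈ Icc 1 n, 1 / (d : ℝ) ^ 2 ≤ 2 := by
  have h1 : ∀ n : ℕ, 1 ≤ n → ∑ d ∈ Icc 1 n, 1 / (d : ℝ) ^ 2 ≤ 2 - 1 / (n : ℝ) := by
    intro n hn
    induction n, hn using Nat.le_induction with
    | base =>
      rw [Icc_self, sum_singleton]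
      norm_num
    | succ n hn ih =>
      have hn0 : (0 : ℝ) < n := by exact_mod_cast hn
      rw [← insert_Icc_right_eq_Icc_add_one (by omega : 1 ≤ n + 1), sum_insert (by simp)]
      have h2 : 1 / (((n + 1 : ℕ) : ℝ)) ^ 2 ≤ 1 / (n : ℝ) - 1 / ((n + 1 : ℕ) : ℝ) := by
        push_cast
        rw [div_sub_div _ _ hn0.ne' (by positivity), div_le_div_iff₀ (by positivity) (by positivity)]
        nlinarith
      linarith
  rcases Nat.eq_zero_or_pos n with h | h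
  · rw [h, Icc_eq_empty (by norm_num), sum_empty]
    norm_num
  · have h2 := h1 n h
    have h3 : (0 : ℝ) ≤ 1 / n := by positivity
    linarith

private theorem Avg_har (n : ℕ) (hn : 1 ≤ n) : ∑ d ∈ Icc 1 n, 1 / (d : ℝ) ≤ 2 * Real.sqrt n := by
  have h1 := harmonic_le_one_add_log n
  have h2 : ((harmonic n : ℚ) : ℝ) = ∑ d ∈ Icc 1 n, 1 / (d : ℝ) := by
    rw [harmonic_eq_sum_Icc]
    push_cast
    exact sum_congr rfl fun d _ => (one_div _).symm
  rw [h2] at h1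
  have hn0 : (0 : ℝ) < n := by exact_mod_cast hn
  have h3 : Real.log n ≤ 2 * (Real.sqrt n - 1) := by
    have h4 := Real.log_le_sub_one_of_pos (Real.sqrt_pos.2 hn0)
    rw [Real.log_sqrt hn0.le] at h4
    linarith
  linarith

private theorem Avg_cnt {q : ℕ} (hq : q.Prime) (H d : ℕ) (hd : 1 ≤ d) (c : ZMod q) :
    (((Icc 1 H).filter (fun h : ℕ => (h : ZMod q) = c ∧ d ∣ h)).card : ℝ) ≤
      if q ∣ d then (H : ℝ) / d else H / (q * d) + 1 := by
  have : NeZero q := ⟨hq.ne_zero⟩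
  have hd0 : (0 : ℝ) < d := by exact_mod_cast hd
  by_cases hqd : q ∣ d
  · rw [if_pos hqd]
    have h1 : ((Icc 1 H).filter (fun h : ℕ => (h : ZMod q) = c ∧ d ∣ h)).card ≤ H / d := by
      refine (card_le_card (t := (Ioc 0 H).filter (fun h => d ∣ h)) ?_).trans ?_
      · intro h hh
        rw [mem_filter, mem_Icc] at hh
        rw [mem_filter, mem_Ioc]
        exact ⟨⟨by omega, hh.1.2⟩, hh.2.2⟩
      · rw [Nat.Ioc_filter_dvd_card_eq_div]
    calc (((Icc 1 H).filter (fun h : ℕ => (h : ZMod q) = c ∧ d ∣ h)).card : ℝ) ≤ ((H / d : ℕ) : ℝ) := by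
          exact_mod_cast h1
      _ ≤ (H : ℝ) / d := Nat.cast_div_le
  · rw [if_neg hqd]
    have hcop : q.Coprime d := (Nat.Prime.coprime_iff_not_dvd hq).2 hqd
    obtain ⟨t, ht1, ht2⟩ := Nat.chineseRemainder hcop c.val 0
    have h1 : (Icc 1 H).filter (fun h : ℕ => (h : ZMod q) = c ∧ d ∣ h) ⊆ cls H (q * d) t 0 ∅ := by
      intro h hh
      rw [mem_filter, mem_Icc] at hh
      unfold cls
      rw [mem_filter, mem_Ioc]
      refine ⟨⟨by omega, hh.1.2⟩, ?_, fun p hp => absurd hp (notMem_empty p)⟩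
      refine (Nat.modEq_and_modEq_iff_modEq_mul hcop).1 ⟨?_, ?_⟩
      · refine Nat.ModEq.trans ?_ ht1.symm
        rw [← ZMod.natCast_eq_natCast_iff, hh.2.1, ZMod.natCast_zmod_val]
      · exact ((Nat.modEq_zero_iff_dvd).2 hh.2.2).trans ht2.symm
    have h2 := cls_base H (q * d) t 0 (Nat.mul_pos hq.pos hd)
    have h3 : (((Icc 1 H).filter (fun h : ℕ => (h : ZMod q) = c ∧ d ∣ h)).card : ℝ) ≤
        ((cls H (q * d) t 0 ∅).card : ℝ) := by exact_mod_cast card_le_card h1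
    have h4 := (abs_le.1 h2).2
    push_cast at h4
    linarith

theorem avg_bound {q : ℕ} (hq : q.Prime) (H : ℕ) (hH : 4 * q ^ 2 ≤ H) (c : ZMod q) :
    ∑ h ∈ (Icc 1 H).filter (fun h : ℕ => (h : ZMod q) = c), sg h ≤ 6 * (H : ℝ) / q := by
  classical
  have hq0 : (0 : ℝ) < q := by exact_mod_cast hq.pos
  have hq1 : (1 : ℝ) ≤ q := by exact_mod_cast hq.one_lt.le
  have hH1 : 1 ≤ H := by
    have : 1 ≤ q ^ 2 := Nat.one_le_pow _ _ hq.pos
    omega
  have hH0 : (0 : ℝ) < H := by exact_mod_cast hH1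
  have e1 : ∑ h ∈ (Icc 1 H).filter (fun h : ℕ => (h : ZMod q) = c), sg h =
      ∑ d ∈ Icc 1 H, (((Icc 1 H).filter (fun h : ℕ => (h : ZMod q) = c ∧ d ∣ h)).card : ℝ) * (1 / (d : ℝ)) := by
    have e2 : ∀ h ∈ (Icc 1 H).filter (fun h : ℕ => (h : ZMod q) = c),
        sg h = ∑ d ∈ Icc 1 H, if d ∣ h then 1 / (d : ℝ) else 0 := by
      intro h hh
      rw [mem_filter, mem_Icc] at hh
      unfold sg
      rw [← sum_filter]
      refine sum_congr ?_ fun _ _ => rfl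
      ext d
      rw [Nat.mem_divisors, mem_filter, mem_Icc]
      constructor
      · rintro ⟨h1, h2⟩
        exact ⟨⟨Nat.pos_of_dvd_of_pos h1 (by omega), (Nat.le_of_dvd (by omega) h1).trans hh.1.2⟩, h1⟩
      · rintro ⟨_, h2⟩
        exact ⟨h2, by omega⟩
    rw [sum_congr rfl e2, sum_comm]
    refine sum_congr rfl fun d _ => ?_
    rw [← sum_filter, sum_const, nsmul_eq_mul, filter_filter]
  have e3 : ∀ d ∈ Icc 1 H, (((Icc 1 H).filter (fun h : ℕ => (h : ZMod q) = c ∧ d ∣ h)).card : ℝ) * (1 / (d : ℝ)) ≤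
      (H / q) * (1 / (d : ℝ) ^ 2) + 1 / (d : ℝ) + H * (if q ∣ d then 1 / (d : ℝ) ^ 2 else 0) := by
    intro d hd
    rw [mem_Icc] at hd
    have hd0 : (0 : ℝ) < d := by exact_mod_cast hd.1
    have h1 := Avg_cnt hq H d hd.1 c
    have h2 : (0 : ℝ) ≤ 1 / (d : ℝ) := by positivity
    refine (mul_le_mul_of_nonneg_right h1 h2).trans ?_
    split_ifs with h3
    · have h4 : (H : ℝ) / d * (1 / d) = H * (1 / (d : ℝ) ^ 2) := by
        field_simp
      rw [h4]
      have h5 : 0 ≤ (H : ℝ) / q * (1 / (d : ℝ) ^ 2) := by positivity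
      linarith
    · have h4 : ((H : ℝ) / (q * d) + 1) * (1 / d) = H / q * (1 / (d : ℝ) ^ 2) + 1 / d := by
        field_simp
      rw [h4, mul_zero, add_zero]
  have e4 : ∑ d ∈ Icc 1 H, (if q ∣ d then 1 / (d : ℝ) ^ 2 else 0) ≤ (1 / (q : ℝ) ^ 2) * 2 := by
    rw [← sum_filter]
    have h1 : (Icc 1 H).filter (fun d => q ∣ d) ⊆ (Icc 1 H).image (fun m => q * m) := by
      intro d hd
      rw [mem_filter, mem_Icc] at hd
      obtain ⟨⟨hd1, hd2⟩, m, hm⟩ := hd
      rw [mem_image]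
      refine ⟨m, mem_Icc.2 ⟨?_, ?_⟩, hm.symm⟩
      · rcases Nat.eq_zero_or_pos m with h0 | h0
        · rw [h0, mul_zero] at hm
          omega
        · exact h0
      · exact (Nat.le_mul_of_pos_left m hq.pos).trans (hm ▸ hd2)
    refine (sum_le_sum_of_subset_of_nonneg h1 fun d _ _ => by positivity).trans ?_
    rw [sum_image fun a _ b _ hab => Nat.eq_of_mul_eq_mul_left hq.pos hab]
    have h2 : ∑ m ∈ Icc 1 H, 1 / (((q * m : ℕ) : ℝ)) ^ 2 = (1 / (q : ℝ) ^ 2) * ∑ m ∈ Icc 1 H, 1 / (m : ℝ) ^ 2 := by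
      rw [mul_sum]
      refine sum_congr rfl fun m _ => ?_
      push_cast
      rw [mul_pow, one_div_mul_one_div_rev, mul_comm ((m : ℝ) ^ 2)]
    rw [h2]
    exact mul_le_mul_of_nonneg_left (Avg_sq H) (by positivity)
  rw [e1]
  refine (sum_le_sum e3).trans ?_
  rw [sum_add_distrib, sum_add_distrib, ← mul_sum, ← mul_sum]
  have f1 := mul_le_mul_of_nonneg_left (Avg_sq H) (by positivity : (0 : ℝ) ≤ (H : ℝ) / q)
  have f2 := Avg_har H hH1
  have f3 := mul_le_mul_of_nonneg_left e4 hH0.le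
  have f4 : (H : ℝ) * ((1 / (q : ℝ) ^ 2) * 2) ≤ H / q * 2 := by
    have h1 : (1 / (q : ℝ) ^ 2) ≤ 1 / q := by
      refine one_div_le_one_div_of_le hq0 ?_
      nlinarith
    have h2 : (H : ℝ) / q * 2 = H * (1 / q * 2) := by ring
    rw [h2]
    exact mul_le_mul_of_nonneg_left (mul_le_mul_of_nonneg_right h1 (by norm_num)) hH0.le
  have f5 : 2 * Real.sqrt H ≤ H / q := by
    rw [le_div_iff₀ hq0]
    have h1 : (2 * (q : ℝ)) ≤ Real.sqrt H := by
      refine Real.le_sqrt_of_sq_le ?_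
      have : ((4 * q ^ 2 : ℕ) : ℝ) ≤ H := by exact_mod_cast hH
      push_cast at this
      nlinarith
    have h2 := Real.mul_self_sqrt hH0.le
    nlinarith [Real.sqrt_nonneg (H : ℝ)]
  have f6 : 6 * (H : ℝ) / q = H / q * 2 + H / q + H / q * 2 + H / q := by ring
  rw [f6]
  have f7 : 0 ≤ (H : ℝ) / q := by positivity
  linarith

end Pool.Agent.Lib.MP_252578_ntA
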