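import Mathlib

/-!
# Counting the `n ≤ N` in a residue class with `n (n + h)` divisible by given primes
-/

set_option autoImplicit false

namespace Pool.Agent.Lib.MP_252578_ntA

open Finset

/-- the density of `p ∣ n (n + h)` -/
noncomputable def gh (h p : ℕ) : ℝ := if p ∣ h then 1 / p else 2 / p

theorem gh_nonneg (h p : ℕ) : 0 ≤ gh h p := by
  unfold gh
  split_ifs <;> positivity

/-- the `n ≤ N` in the class `r` modulo `M` with `p ∣ n (n + h)` for all `p ∈ T` -/
def cls (N M r h : ℕ) (T : Finset ℕ) : Finset ℕ :=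
  (Ioc 0 N).filter (fun n => n ≡ r [MOD M] ∧ ∀ p ∈ T, p ∣ n * (n + h))

theorem cls_base (N M r h : ℕ) (hM : 0 < M) : |((cls N M r h ∅).card : ℝ) - N / M| ≤ 1 := by
  have h0 : cls N M r h ∅ = (Ioc 0 N).filter (fun n => n ≡ r [MOD M]) := by
    unfold cls
    refine filter_congr fun n _ => ?_
    simp
  have h1 := Nat.Ioc_filter_modEq_card 0 N hM r
  have hMq : (0 : ℚ) < M := by exact_mod_cast hM
  have hmono : ⌊(((0 : ℕ) : ℚ) - r) / (M : ℚ)⌋ ≤ ⌊((N : ℚ) - r) / (M : ℚ)⌋ := by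
    refine Int.floor_le_floor ?_
    have : (((0 : ℕ) : ℚ)) ≤ N := by exact_mod_cast Nat.zero_le N
    gcongr
  rw [max_eq_left (sub_nonneg.2 hmono)] at h1
  rw [h0]
  have h2 : (((((Ioc 0 N).filter (fun n => n ≡ r [MOD M])).card : ℤ) : ℚ)) =
      ((⌊((N : ℚ) - r) / (M : ℚ)⌋ - ⌊(((0 : ℕ) : ℚ) - r) / (M : ℚ)⌋ : ℤ) : ℚ) := by rw [h1]
  have h3 := Int.floor_le (((N : ℚ) - r) / (M : ℚ))
  have h4 := Int.lt_floor_add_one (((N : ℚ) - r) / (M : ℚ))
  have h5 := Int.floor_le ((((0 : ℕ) : ℚ) - r) / (M : ℚ))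
  have h6 := Int.lt_floor_add_one ((((0 : ℕ) : ℚ) - r) / (M : ℚ))
  have h7 : ((N : ℚ) - r) / (M : ℚ) - (((0 : ℕ) : ℚ) - r) / (M : ℚ) = N / M := by
    rw [← sub_div]
    congr 1
    push_cast
    ring
  push_cast at h2
  have h8 : |((((Ioc 0 N).filter (fun n => n ≡ r [MOD M])).card : ℚ)) - N / M| ≤ 1 := by
    rw [h2, ← h7, abs_le]
    push_cast at h3 h4 h5 h6 ⊢
    constructor <;> linarith
  have h9 : ((|((((Ioc 0 N).filter (fun n => n ≡ r [MOD M])).card : ℚ)) - N / M| : ℚ) : ℝ) ≤ ((1 : ℚ) : ℝ) := by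
    exact_mod_cast h8
  push_cast at h9
  exact h9

private theorem Cnt_dvd1 {p h : ℕ} (hp : p.Prime) (hd : p ∣ h) (n : ℕ) : p ∣ n * (n + h) ↔ n ≡ 0 [MOD p] := by
  rw [hp.dvd_mul, Nat.modEq_zero_iff_dvd, Nat.dvd_add_iff_left hd]
  simp

private theorem Cnt_dvd2 {p h : ℕ} (hp : p.Prime) (n : ℕ) :
    p ∣ n * (n + h) ↔ n ≡ 0 [MOD p] ∨ n ≡ (p - 1) * h [MOD p] := by
  rw [hp.dvd_mul, Nat.modEq_zero_iff_dvd]
  have h1 : (p - 1) * h + h = p * h := by
    obtain ⟨m, hm⟩ : ∃ m, p = m + 1 := ⟨p - 1, by have := hp.pos; omega⟩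
    rw [hm, Nat.add_sub_cancel]
    ring
  have h2 : p ∣ n + h ↔ n ≡ (p - 1) * h [MOD p] := by
    rw [← Nat.modEq_zero_iff_dvd]
    constructor
    · intro h3
      refine Nat.ModEq.add_right_cancel' h ?_
      rw [h1]
      exact h3.trans (by rw [Nat.ModEq.comm, Nat.modEq_zero_iff_dvd]; exact dvd_mul_right _ _)
    · intro h3
      refine (h3.add_right h).trans ?_
      rw [h1, Nat.modEq_zero_iff_dvd]
      exact dvd_mul_right _ _
  rw [h2]

private theorem Cnt_crt {M p : ℕ} (hc : M.Coprime p) (r s : ℕ) :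
    ∃ t : ℕ, ∀ n : ℕ, (n ≡ r [MOD M] ∧ n ≡ s [MOD p]) ↔ n ≡ t [MOD M * p] := by
  obtain ⟨t, ht1, ht2⟩ := Nat.chineseRemainder hc r s
  refine ⟨t, fun n => ⟨fun h => ?_, fun h => ?_⟩⟩
  · exact (Nat.modEq_and_modEq_iff_modEq_mul hc).1 ⟨h.1.trans ht1.symm, h.2.trans ht2.symm⟩
  · obtain ⟨h1, h2⟩ := (Nat.modEq_and_modEq_iff_modEq_mul hc).2 h
    exact ⟨h1.trans ht1, h2.trans ht2⟩

theorem cls_card (N h : ℕ) (T : Finset ℕ) (hT : ∀ p ∈ T, p.Prime) (M r : ℕ) (hM : 0 < M)
    (hTM : ∀ p ∈ T, ¬ p ∣ M) :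
    |((cls N M r h T).card : ℝ) - N / M * ∏ p ∈ T, gh h p| ≤ 2 ^ T.card := by
  classical
  induction T using Finset.induction_on generalizing M r with
  | empty =>
    rw [prod_empty, mul_one, card_empty, pow_zero]
    exact cls_base N M r h hM
  | insert p T hpT ih =>
    have hp : p.Prime := hT p (mem_insert_self _ _)
    have hT' : ∀ q ∈ T, q.Prime := fun q hq => hT q (mem_insert_of_mem hq)
    have hcop : M.Coprime p := by
      rw [Nat.coprime_comm]
      exact (Nat.Prime.coprime_iff_not_dvd hp).2 (hTM p (mem_insert_self _ _))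
    have hMp : 0 < M * p := Nat.mul_pos hM hp.pos
    have hTMp : ∀ q ∈ T, ¬ q ∣ M * p := by
      intro q hq hd
      rcases (hT' q hq).dvd_mul.1 hd with h1 | h1
      · exact hTM q (mem_insert_of_mem hq) h1
      · have h2 := (Nat.prime_dvd_prime_iff_eq (hT' q hq) hp).1 h1
        exact hpT (h2 ▸ hq)
    have hp0 : (p : ℝ) ≠ 0 := by exact_mod_cast hp.ne_zero
    have hM0 : (M : ℝ) ≠ 0 := by exact_mod_cast hM.ne'
    rw [prod_insert hpT, card_insert_of_notMem hpT]
    by_cases hd : p ∣ h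
    · obtain ⟨t, ht⟩ := Cnt_crt hcop r 0
      have e1 : cls N M r h (insert p T) = cls N (M * p) t h T := by
        unfold cls
        refine filter_congr fun n _ => ?_
        rw [forall_mem_insert, Cnt_dvd1 hp hd, ← ht n]
        tauto
      have e2 : (N : ℝ) / M * (gh h p * ∏ q ∈ T, gh h q) = N / ((M * p : ℕ) : ℝ) * ∏ q ∈ T, gh h q := by
        unfold gh
        rw [if_pos hd]
        push_cast
        field_simp
      rw [e1, e2]
      refine (ih hT' (M * p) t hMp hTMp).trans ?_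
      rw [pow_succ]
      have : (0 : ℝ) < 2 ^ T.card := by positivity
      linarith
    · obtain ⟨t, ht⟩ := Cnt_crt hcop r 0
      obtain ⟨t', ht'⟩ := Cnt_crt hcop r ((p - 1) * h)
      have hne : ¬ (p - 1) * h ≡ 0 [MOD p] := by
        intro h1
        have h2 := (Nat.modEq_zero_iff_dvd).1 h1
        rcases hp.dvd_mul.1 h2 with h3 | h3
        · have h4 := Nat.le_of_dvd (by have := hp.two_le; omega) h3
          have := hp.two_le
          omega
        · exact hd h3
      have e1 : cls N M r h (insert p T) = cls N (M * p) t h T ∪ cls N (M * p) t' h T := by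
        unfold cls
        rw [← filter_or]
        refine filter_congr fun n _ => ?_
        rw [forall_mem_insert, Cnt_dvd2 hp, ← ht n, ← ht' n]
        tauto
      have e3 : Disjoint (cls N (M * p) t h T) (cls N (M * p) t' h T) := by
        rw [disjoint_left]
        intro n h1 h2
        unfold cls at h1 h2
        rw [mem_filter, ← ht n] at h1
        rw [mem_filter, ← ht' n] at h2
        exact hne (h2.2.1.2.symm.trans h1.2.1.2)
      have e2 : (N : ℝ) / M * (gh h p * ∏ q ∈ T, gh h q) =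
          N / ((M * p : ℕ) : ℝ) * (∏ q ∈ T, gh h q) + N / ((M * p : ℕ) : ℝ) * ∏ q ∈ T, gh h q := by
        rw [show gh h p = 2 / p by unfold gh; rw [if_neg hd]]
        push_cast
        field_simp
        ring
      rw [e1, card_union_of_disjoint e3, e2]
      push_cast
      have i1 := ih hT' (M * p) t hMp hTMp
      have i2 := ih hT' (M * p) t' hMp hTMp
      push_cast at i1 i2
      rw [abs_le] at i1 i2 ⊢
      rw [pow_succ]
      constructor <;> linarith [i1.1, i1.2, i2.1, i2.2]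

end Pool.Agent.Lib.MP_252578_ntA
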