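import Pool.Agent.Lib.MP_252578_ntA.Asm

/-!
# The law of the pair of classes of `p_n`, `p_{n+k}`
-/

set_option autoImplicit false

namespace Pool.Agent.Lib.MP_252578_ntA

open Finset Filter

open Classical in
/-- `f_ab(x, q, k)`: the proportion, among the primes `p_n ≤ x`, of those with `p_n ≡ a` and `p_{n+k} ≡ b` modulo `q` -/
noncomputable def fab (q k : ℕ) (a b : ZMod q) (x : ℝ) : ℝ :=
  (((Finset.range (Nat.primeCounting ⌊x⌋₊)).filter
      (fun n => ((Nat.nth Nat.Prime n : ℕ) : ZMod q) = a ∧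
        ((Nat.nth Nat.Prime (n + k) : ℕ) : ZMod q) = b)).card : ℝ) /
    (Nat.primeCounting ⌊x⌋₊ : ℝ)

theorem fab_nonneg (q k : ℕ) (a b : ZMod q) (x : ℝ) : 0 ≤ fab q k a b x := by
  unfold fab
  positivity

theorem fab_sum (q k : ℕ) (S : Finset (ZMod q × ZMod q)) (x : ℝ) :
    ∑ s ∈ S, fab q k s.1 s.2 x = (cnt q k S x : ℝ) / (Nat.primeCounting ⌊x⌋₊ : ℝ) := by
  classical
  unfold fab
  rw [← sum_div]
  congr 1
  unfold cnt
  rw [card_eq_sum_card_fiberwise (f := fun n : ℕ =>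
    (((Nat.nth Nat.Prime n : ℕ) : ZMod q), ((Nat.nth Nat.Prime (n + k) : ℕ) : ZMod q))) (t := S)]
  · push_cast
    refine sum_congr rfl fun s hs => ?_
    rw [filter_filter]
    have e1 : (range (Nat.primeCounting ⌊x⌋₊)).filter (fun n => ((Nat.nth Nat.Prime n : ℕ) : ZMod q) = s.1 ∧
        ((Nat.nth Nat.Prime (n + k) : ℕ) : ZMod q) = s.2) =
        (range (Nat.primeCounting ⌊x⌋₊)).filter (fun n =>
          (((Nat.nth Nat.Prime n : ℕ) : ZMod q), ((Nat.nth Nat.Prime (n + k) : ℕ) : ZMod q)) ∈ S ∧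
          (((Nat.nth Nat.Prime n : ℕ) : ZMod q), ((Nat.nth Nat.Prime (n + k) : ℕ) : ZMod q)) = s) := by
      refine filter_congr fun n _ => ?_
      constructor
      · rintro ⟨h1, h2⟩
        have h3 : (((Nat.nth Nat.Prime n : ℕ) : ZMod q), ((Nat.nth Nat.Prime (n + k) : ℕ) : ZMod q)) = s :=
          Prod.ext h1 h2
        exact ⟨h3.symm ▸ hs, h3⟩
      · rintro ⟨_, h2⟩
        rw [← h2]
        exact ⟨rfl, rfl⟩
    exact_mod_cast congrArg card e1
  · intro n hn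
    exact (mem_filter.1 hn).2

/-- the bound for all sets of pairs -/
theorem law_bound : ∃ C X : ℝ, 0 < C ∧ 100 ≤ X ∧ ∀ x ≥ X, ∀ q k : ℕ, q.Prime → 4 * (q : ℝ) ^ 2 ≤ Real.log x →
    1 ≤ k → ∀ S : Finset (ZMod q × ZMod q),
      ∑ s ∈ S, fab q k s.1 s.2 x ≤ C * Real.sqrt (k * S.card) / ((q : ℝ) - 1) := by
  obtain ⟨C, X, hC, hX, hall⟩ := main_bound
  refine ⟨2 * C, X, by linarith, hX, fun x hx q k hq hxq hk S => ?_⟩
  have h1 := hall x hx q k hq hxq hk S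
  have h2 := cheb (hX.trans hx)
  have hx100 : 100 ≤ x := hX.trans hx
  have hL : 0 < Real.log x := Real.log_pos (by linarith)
  have hxL : 0 < x / Real.log x := by positivity
  have hπ : (0 : ℝ) < Nat.primeCounting ⌊x⌋₊ := by linarith
  have hq2 : (2 : ℝ) ≤ q := by exact_mod_cast hq.two_le
  rw [fab_sum, div_le_iff₀ hπ]
  have hr : 0 ≤ Real.sqrt (k * S.card) := Real.sqrt_nonneg _
  have h3 : Real.sqrt (k * S.card) / q ≤ Real.sqrt (k * S.card) / ((q : ℝ) - 1) :=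
    div_le_div_of_nonneg_left hr (by linarith) (by linarith)
  calc (cnt q k S x : ℝ) ≤ C * (Real.sqrt (k * S.card) / q) * (x / Real.log x) := h1
    _ ≤ C * (Real.sqrt (k * S.card) / ((q : ℝ) - 1)) * (2 * (Nat.primeCounting ⌊x⌋₊ : ℝ)) := by
        refine mul_le_mul (mul_le_mul_of_nonneg_left h3 hC.le) h2 hxL.le ?_
        exact mul_nonneg hC.le (div_nonneg hr (by linarith))
    _ = 2 * C * Real.sqrt (k * S.card) / ((q : ℝ) - 1) * (Nat.primeCounting ⌊x⌋₊ : ℝ) := by ring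

/-- the total mass of the pairs of classes prime to `q` -/
theorem law_mass (q k : ℕ) [NeZero q] (hq : q.Prime) (x : ℝ) (hx : 8 ≤ Nat.primeCounting ⌊x⌋₊) :
    3 / 4 ≤ ∑ s ∈ (univ : Finset (ZMod q × ZMod q)).filter (fun s => s.1 ≠ 0 ∧ s.2 ≠ 0), fab q k s.1 s.2 x := by
  classical
  have hπ : (0 : ℝ) < Nat.primeCounting ⌊x⌋₊ := by
    exact_mod_cast (show 0 < Nat.primeCounting ⌊x⌋₊ by omega)
  rw [fab_sum, le_div_iff₀ hπ]
  have key : Nat.primeCounting ⌊x⌋₊ ≤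
      cnt q k ((univ : Finset (ZMod q × ZMod q)).filter (fun s => s.1 ≠ 0 ∧ s.2 ≠ 0)) x + 2 := by
    unfold cnt
    have hq0 : ∀ n : ℕ, ((Nat.nth Nat.Prime n : ℕ) : ZMod q) = 0 → Nat.nth Nat.Prime n = q := by
      intro n hn
      exact ((Nat.prime_dvd_prime_iff_eq hq (Nat.prime_nth_prime n)).1
        ((ZMod.natCast_eq_zero_iff _ _).1 hn)).symm
    obtain ⟨i, hi⟩ : ∃ i, Nat.nth Nat.Prime i = q := ⟨Nat.count Nat.Prime q, Nat.nth_count hq⟩
    have hsub : range (Nat.primeCounting ⌊x⌋₊) ⊆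
        (range (Nat.primeCounting ⌊x⌋₊)).filter (fun n : ℕ =>
          (((Nat.nth Nat.Prime n : ℕ) : ZMod q), ((Nat.nth Nat.Prime (n + k) : ℕ) : ZMod q)) ∈
            (univ : Finset (ZMod q × ZMod q)).filter (fun s => s.1 ≠ 0 ∧ s.2 ≠ 0)) ∪ {i, i - k} := by
      intro n hn
      rw [mem_union, mem_filter, mem_filter]
      by_cases h1 : ((Nat.nth Nat.Prime n : ℕ) : ZMod q) = 0
      · right
        have h2 : n = i := nth_mono.injective ((hq0 n h1).trans hi.symm)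
        rw [h2]
        exact mem_insert_self _ _
      · by_cases h2 : ((Nat.nth Nat.Prime (n + k) : ℕ) : ZMod q) = 0
        · right
          have h3 : n + k = i := nth_mono.injective ((hq0 _ h2).trans hi.symm)
          rw [mem_insert, mem_singleton]
          right
          omega
        · left
          exact ⟨hn, mem_univ _, h1, h2⟩
    have h3 := card_le_card hsub
    rw [card_range] at h3
    refine h3.trans ((card_union_le _ _).trans (Nat.add_le_add_left ?_ _))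
    exact card_le_two
  have h1 : (Nat.primeCounting ⌊x⌋₊ : ℝ) ≤
      (cnt q k ((univ : Finset (ZMod q × ZMod q)).filter (fun s => s.1 ≠ 0 ∧ s.2 ≠ 0)) x : ℝ) + 2 := by
    exact_mod_cast key
  have h2 : (8 : ℝ) ≤ Nat.primeCounting ⌊x⌋₊ := by exact_mod_cast hx
  linarith

theorem many {C c : ℝ} (hC : 0 < C) (hc : c ≤ 1 / 4) (hcC : c ≤ 1 / (4 * C ^ 2)) {q k : ℕ} [NeZero q]
    (hq : q.Prime) (hk : 1 ≤ k) {x : ℝ} (hx : 8 ≤ Nat.primeCounting ⌊x⌋₊)
    (hS : ∀ S : Finset (ZMod q × ZMod q),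
      ∑ s ∈ S, fab q k s.1 s.2 x ≤ C * Real.sqrt (k * S.card) / ((q : ℝ) - 1)) :
    c / k * ((q : ℝ) - 1) ^ 2 ≤ (Nat.card {s : ZMod q × ZMod q // s.1 ≠ 0 ∧ s.2 ≠ 0 ∧
      c / ((q : ℝ) - 1) ^ 2 ≤ fab q k s.1 s.2 x} : ℝ) := by
  classical
  have hq2 : (2 : ℝ) ≤ q := by exact_mod_cast hq.two_le
  have hq1 : (0 : ℝ) < (q : ℝ) - 1 := by linarith
  have hk0 : (0 : ℝ) < k := by exact_mod_cast hk
  obtain ⟨U, hU⟩ : ∃ U : Finset (ZMod q × ZMod q), U = univ.filter (fun s => s.1 ≠ 0 ∧ s.2 ≠ 0) := ⟨_, rfl⟩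
  obtain ⟨P, hP⟩ : ∃ P : Finset (ZMod q × ZMod q),
      P = U.filter (fun s => c / ((q : ℝ) - 1) ^ 2 ≤ fab q k s.1 s.2 x) := ⟨_, rfl⟩
  have hcard : Nat.card {s : ZMod q × ZMod q // s.1 ≠ 0 ∧ s.2 ≠ 0 ∧
      c / ((q : ℝ) - 1) ^ 2 ≤ fab q k s.1 s.2 x} = P.card := by
    rw [Nat.card_eq_fintype_card, Fintype.card_subtype, hP, hU, filter_filter]
    congr 1
    refine filter_congr fun s _ => ?_
    tauto
  rw [hcard]
  have hUc : (U.card : ℝ) = ((q : ℝ) - 1) ^ 2 := by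
    have h1 : U = (univ.filter (fun a : ZMod q => a ≠ 0)) ×ˢ (univ.filter (fun a : ZMod q => a ≠ 0)) := by
      rw [hU]
      ext s
      simp
    have h2 : (univ.filter (fun a : ZMod q => a ≠ 0)).card = q - 1 := by
      rw [filter_ne', card_erase_of_mem (mem_univ _), card_univ, ZMod.card]
    rw [h1, card_product, h2]
    push_cast
    rw [Nat.cast_sub hq.one_lt.le]
    push_cast
    ring
  have hmass := law_mass q k hq x hx
  rw [← hU] at hmass
  have hsplit : ∑ s ∈ U, fab q k s.1 s.2 x = ∑ s ∈ P, fab q k s.1 s.2 x +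
      ∑ s ∈ U.filter (fun s => ¬ c / ((q : ℝ) - 1) ^ 2 ≤ fab q k s.1 s.2 x), fab q k s.1 s.2 x := by
    rw [hP]
    exact (sum_filter_add_sum_filter_not U _ _).symm
  have hbad : ∑ s ∈ U.filter (fun s => ¬ c / ((q : ℝ) - 1) ^ 2 ≤ fab q k s.1 s.2 x), fab q k s.1 s.2 x ≤ 1 / 4 := by
    have h1 : ∀ s ∈ U.filter (fun s => ¬ c / ((q : ℝ) - 1) ^ 2 ≤ fab q k s.1 s.2 x),
        fab q k s.1 s.2 x ≤ 1 / 4 / ((q : ℝ) - 1) ^ 2 := by
      intro s hs
      have h2 := (mem_filter.1 hs).2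
      push Not at h2
      refine h2.le.trans ?_
      exact div_le_div_of_nonneg_right hc (by positivity)
    refine (sum_le_card_nsmul _ _ _ h1).trans ?_
    rw [nsmul_eq_mul]
    have h3 : ((U.filter (fun s => ¬ c / ((q : ℝ) - 1) ^ 2 ≤ fab q k s.1 s.2 x)).card : ℝ) ≤ ((q : ℝ) - 1) ^ 2 := by
      rw [← hUc]
      exact_mod_cast card_filter_le _ _
    calc _ ≤ ((q : ℝ) - 1) ^ 2 * (1 / 4 / ((q : ℝ) - 1) ^ 2) :=
          mul_le_mul_of_nonneg_right h3 (by positivity)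
      _ = 1 / 4 := by field_simp
  have hgood : 1 / 2 ≤ C * Real.sqrt (k * P.card) / ((q : ℝ) - 1) := by
    have h1 := hS P
    linarith
  rw [le_div_iff₀ hq1] at hgood
  have hs0 : 0 ≤ Real.sqrt (k * P.card) := Real.sqrt_nonneg _
  have hs2 : Real.sqrt (k * P.card) ^ 2 = k * P.card := Real.sq_sqrt (by positivity)
  have h5 : (1 / 2 * ((q : ℝ) - 1)) ^ 2 ≤ (C * Real.sqrt (k * P.card)) ^ 2 :=
    pow_le_pow_left₀ (by linarith) hgood 2
  rw [mul_pow, mul_pow, hs2] at h5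
  have h6 : ((q : ℝ) - 1) ^ 2 / (4 * C ^ 2) ≤ k * P.card := by
    rw [div_le_iff₀ (by positivity)]
    nlinarith
  calc c / k * ((q : ℝ) - 1) ^ 2 ≤ 1 / (4 * C ^ 2) / k * ((q : ℝ) - 1) ^ 2 := by
        refine mul_le_mul_of_nonneg_right ?_ (by positivity)
        exact div_le_div_of_nonneg_right hcC hk0.le
    _ = ((q : ℝ) - 1) ^ 2 / (4 * C ^ 2) / k := by ring
    _ ≤ k * P.card / k := div_le_div_of_nonneg_right h6 hk0.le
    _ = P.card := by field_simp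

theorem diag {C : ℝ} {q k : ℕ} (hq : q.Prime) {x : ℝ}
    (hS : ∀ S : Finset (ZMod q × ZMod q),
      ∑ s ∈ S, fab q k s.1 s.2 x ≤ C * Real.sqrt (k * S.card) / ((q : ℝ) - 1)) :
    ∑ a ∈ Ico 1 q, fab q k (a : ZMod q) (a : ZMod q) x ≤ C * Real.sqrt (k / ((q : ℝ) - 1)) := by
  classical
  have hq2 : (2 : ℝ) ≤ q := by exact_mod_cast hq.two_le
  have hq1 : (0 : ℝ) < (q : ℝ) - 1 := by linarith
  have hinj : Set.InjOn (fun a : ℕ => (((a : ℕ) : ZMod q), ((a : ℕ) : ZMod q))) (Ico 1 q : Set ℕ) := by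
    intro a ha b hb h
    rw [coe_Ico, Set.mem_Ico] at ha hb
    have h1 := (ZMod.natCast_eq_natCast_iff a b q).1 (Prod.mk.inj h).1
    have h2 : a % q = b % q := h1
    rwa [Nat.mod_eq_of_lt ha.2, Nat.mod_eq_of_lt hb.2] at h2
  have h1 := hS ((Ico 1 q).image (fun a : ℕ => (((a : ℕ) : ZMod q), ((a : ℕ) : ZMod q))))
  rw [sum_image hinj, card_image_of_injOn hinj, Nat.card_Ico, Nat.cast_sub hq.one_lt.le, Nat.cast_one] at h1
  refine h1.trans (le_of_eq ?_)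
  rw [mul_div_assoc]
  congr 1
  have h3 : (k : ℝ) * ((q : ℝ) - 1) = k / ((q : ℝ) - 1) * ((q : ℝ) - 1) ^ 2 := by
    field_simp
  rw [h3, Real.sqrt_mul (by positivity), Real.sqrt_sq hq1.le, mul_div_cancel_right₀ _ hq1.ne']

theorem spread {C : ℝ} (hC : 0 < C) {q k : ℕ} [NeZero q] (hq : q.Prime) {x : ℝ}
    (hS : ∀ S : Finset (ZMod q × ZMod q),
      ∑ s ∈ S, fab q k s.1 s.2 x ≤ C * Real.sqrt (k * S.card) / ((q : ℝ) - 1)) (m : ℕ) {ε : ℝ} (hε : 0 < ε) :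
    (Nat.card {a : ZMod q // ∃ B : Finset (ZMod q), B.card ≤ m ∧ ε / ((q : ℝ) - 1) < ∑ b ∈ B, fab q k a b x} : ℝ) ≤
      C ^ 2 * k * m / ε ^ 2 := by
  classical
  have hq2 : (2 : ℝ) ≤ q := by exact_mod_cast hq.two_le
  have hq1 : (0 : ℝ) < (q : ℝ) - 1 := by linarith
  obtain ⟨A, hA⟩ : ∃ A : Finset (ZMod q), A = univ.filter (fun a => ∃ B : Finset (ZMod q), B.card ≤ m ∧
      ε / ((q : ℝ) - 1) < ∑ b ∈ B, fab q k a b x) := ⟨_, rfl⟩
  have hcard : Nat.card {a : ZMod q // ∃ B : Finset (ZMod q), B.card ≤ m ∧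
      ε / ((q : ℝ) - 1) < ∑ b ∈ B, fab q k a b x} = A.card := by
    rw [Nat.card_eq_fintype_card, Fintype.card_subtype, hA]
  rw [hcard]
  have hAB : ∀ a ∈ A, ∃ B : Finset (ZMod q), B.card ≤ m ∧ ε / ((q : ℝ) - 1) < ∑ b ∈ B, fab q k a b x := by
    intro a ha
    rw [hA] at ha
    exact (mem_filter.1 ha).2
  choose! B hB1 hB2 using hAB
  obtain ⟨S, hSd⟩ : ∃ S : Finset (ZMod q × ZMod q), S = A.biUnion (fun a => (B a).image (fun b => (a, b))) := ⟨_, rfl⟩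
  have hdisj : (A : Set (ZMod q)).PairwiseDisjoint (fun a => (B a).image (fun b => (a, b))) := by
    intro a _ a' _ hne
    rw [Function.onFun, disjoint_left]
    intro s h1 h2
    rw [mem_image] at h1 h2
    obtain ⟨b, _, rfl⟩ := h1
    obtain ⟨b', _, h3⟩ := h2
    exact hne (Prod.mk.inj h3).1.symm
  have hinj : ∀ a : ZMod q, Function.Injective (fun b : ZMod q => (a, b)) := fun a b b' h => (Prod.mk.inj h).2
  have hScard : (S.card : ℝ) ≤ A.card * m := by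
    rw [hSd, card_biUnion fun a ha a' ha' hne => hdisj ha ha' hne]
    push_cast
    refine (sum_le_card_nsmul _ _ (m : ℝ) fun a ha => ?_).trans (by rw [nsmul_eq_mul])
    rw [card_image_of_injective _ (hinj a)]
    exact_mod_cast hB1 a ha
  have hlow : A.card * (ε / ((q : ℝ) - 1)) ≤ ∑ s ∈ S, fab q k s.1 s.2 x := by
    rw [hSd, sum_biUnion hdisj, ← nsmul_eq_mul]
    refine card_nsmul_le_sum _ _ _ fun a ha => ?_
    rw [sum_image fun b _ b' _ h => hinj a h]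
    exact (hB2 a ha).le
  have hup := hlow.trans (hS S)
  have h1 : (A.card : ℝ) * ε ≤ C * Real.sqrt (k * (A.card * m)) := by
    have h2 : Real.sqrt (k * S.card) ≤ Real.sqrt (k * (A.card * m)) :=
      Real.sqrt_le_sqrt (mul_le_mul_of_nonneg_left hScard (Nat.cast_nonneg k))
    rw [mul_div_assoc', div_le_div_iff_of_pos_right hq1] at hup
    exact hup.trans (mul_le_mul_of_nonneg_left h2 hC.le)
  rcases Nat.eq_zero_or_pos A.card with h0 | h0
  · rw [h0, Nat.cast_zero]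
    positivity
  · have hA0 : (0 : ℝ) < A.card := by exact_mod_cast h0
    have h3 : ((A.card : ℝ) * ε) ^ 2 ≤ (C * Real.sqrt (k * (A.card * m))) ^ 2 :=
      pow_le_pow_left₀ (by positivity) h1 2
    rw [mul_pow, mul_pow, Real.sq_sqrt (by positivity)] at h3
    rw [le_div_iff₀ (by positivity)]
    have h4 : (A.card : ℝ) * (A.card * ε ^ 2) ≤ A.card * (C ^ 2 * k * m) := by nlinarith
    exact le_of_mul_le_mul_left h4 hA0

end Pool.Agent.Lib.MP_252578_ntA
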