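import Mathlib

/-!
# Few large gaps between a prime and its `k`-th successor

`gap_count`: for a strictly increasing sequence `p` with `p n ≤ X` for `n < N`, the number of `n < N` with `p (n + k) - p n > H`
is at most `k + k X / H` (telescoping).
-/

set_option autoImplicit false

namespace Pool.Agent.Lib.MP_252578_ntA

open Finset

private theorem Gap_tel (p : ℕ → ℕ) (M k : ℕ) :
    ∑ n ∈ range M, p (n + k) + ∑ i ∈ range k, p i = ∑ n ∈ range M, p n + ∑ i ∈ range k, p (M + i) := by
  have h1 := sum_range_add (fun n => p n) k M
  have h2 := sum_range_add (fun n => p n) M k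
  rw [add_comm k M] at h1
  rw [← h2, h1, add_comm]
  congr 1
  exact sum_congr rfl fun n _ => by rw [add_comm]

theorem gap_count {p : ℕ → ℕ} (hp : StrictMono p) {N X : ℕ} (hX : ∀ n < N, p n ≤ X) (k H : ℕ) :
    ((range N).filter (fun n => p n + H < p (n + k))).card * H ≤ k * X + k * H := by
  by_cases hk : N ≤ k
  · have h1 : ((range N).filter (fun n => p n + H < p (n + k))).card ≤ k :=
      (card_filter_le _ _).trans (by rw [card_range]; exact hk)
    exact (Nat.mul_le_mul_right H h1).trans (Nat.le_add_left _ _)
  · push Not at hk
    obtain ⟨M, rfl⟩ : ∃ M, N = M + k := ⟨N - k, by omega⟩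
    have h1 : ((range (M + k)).filter (fun n => p n + H < p (n + k))).card ≤
        ((range M).filter (fun n => p n + H < p (n + k))).card + k := by
      have h2 : (range (M + k)).filter (fun n => p n + H < p (n + k)) ⊆
          (range M).filter (fun n => p n + H < p (n + k)) ∪ (range k).image (fun i => M + i) := by
        intro n hn
        rw [mem_filter, mem_range] at hn
        rw [mem_union, mem_filter, mem_range, mem_image]
        by_cases h : n < M
        · exact Or.inl ⟨h, hn.2⟩
        · exact Or.inr ⟨n - M, mem_range.2 (by omega), by omega⟩
      refine (card_le_card h2).trans ((card_union_le _ _).trans (Nat.add_le_add_left ?_ _))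
      exact card_image_le.trans (card_range k).le
    have h3 : ((range M).filter (fun n => p n + H < p (n + k))).card * H ≤ k * X := by
      have h4 : ∑ n ∈ range M, p n + ((range M).filter (fun n => p n + H < p (n + k))).card * H ≤
          ∑ n ∈ range M, p (n + k) := by
        rw [← smul_eq_mul, ← sum_const, sum_filter, ← sum_add_distrib]
        refine sum_le_sum fun n _ => ?_
        have h5 : p n ≤ p (n + k) := hp.monotone (Nat.le_add_right _ _)
        split_ifs with h
        · exact h.le
        · exact h5
      have h6 := Gap_tel p M k
      have h7 : ∑ i ∈ range k, p (M + i) ≤ k * X := by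
        refine (sum_le_card_nsmul _ _ X fun i hi => ?_).trans ?_
        · rw [mem_range] at hi
          exact hX _ (by omega)
        · rw [card_range, smul_eq_mul]
      omega
    calc ((range (M + k)).filter (fun n => p n + H < p (n + k))).card * H
        ≤ (((range M).filter (fun n => p n + H < p (n + k))).card + k) * H := Nat.mul_le_mul_right H h1
      _ = ((range M).filter (fun n => p n + H < p (n + k))).card * H + k * H := add_mul _ _ _
      _ ≤ k * X + k * H := Nat.add_le_add_right h3 _

end Pool.Agent.Lib.MP_252578_ntA
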