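import Pool.Agent.Lib.MP_252578_ntA.Cor
import Pool.Agent.Lib.MP_d57abb_nt.All.SW

/-!
# The masses of the rows and of the columns, and the number of large entries in almost all of them
-/

set_option autoImplicit false

namespace Pool.Agent.Lib.MP_252578_ntA

open Finset Filter

open Pool.Agent.Lib.MP_d57abb_nt.All (lp sw)

/-- the number of the `n < π(x)` with `p_n ≡ a` -/
noncomputable def row (q : ℕ) (a : ZMod q) (x : ℝ) : ℕ :=
  ((range (Nat.primeCounting ⌊x⌋₊)).filter (fun n => ((Nat.nth Nat.Prime n : ℕ) : ZMod q) = a)).card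

theorem row_ge (q : ℕ) (a : ZMod q) (y : ℕ) (x : ℝ) (hy : ⌊x⌋₊ = y) :
    ((Ioc 0 y).filter (fun p : ℕ => p.Prime ∧ (p : ZMod q) = a)).card ≤ row q a x := by
  unfold row
  refine card_le_card_of_injOn (fun p => Nat.count Nat.Prime p) ?_ ?_
  · intro p hp
    rw [mem_coe, mem_filter, mem_Ioc] at hp
    obtain ⟨⟨_, h2⟩, h3, h4⟩ := hp
    rw [mem_coe, mem_filter, mem_range]
    refine ⟨?_, ?_⟩
    · rw [hy]
      have h5 : Nat.count Nat.Prime p < Nat.count Nat.Prime (p + 1) := by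
        rw [Nat.count_succ, if_pos h3]
        omega
      exact lt_of_lt_of_le h5 (Nat.count_monotone Nat.Prime (by omega))
    · rw [Nat.nth_count h3]
      exact h4
  · intro p hp p' hp' h
    rw [mem_coe, mem_filter] at hp hp'
    have h0 : Nat.count Nat.Prime p = Nat.count Nat.Prime p' := h
    have h1 := congrArg (Nat.nth Nat.Prime) h0
    rwa [Nat.nth_count hp.2.1, Nat.nth_count hp'.2.1] at h1

theorem theta_le (q c : ℕ) (a : ZMod q) (hca : ((c : ℕ) : ZMod q) = a) (y : ℕ) :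
    ∑ n ∈ (Ioc 0 y).filter (fun n => n ≡ c [MOD q]), lp n ≤
      ((Ioc 0 y).filter (fun p : ℕ => p.Prime ∧ (p : ZMod q) = a)).card * Real.log y := by
  have h1 : ∑ n ∈ (Ioc 0 y).filter (fun n => n ≡ c [MOD q]), lp n =
      ∑ n ∈ (Ioc 0 y).filter (fun p : ℕ => p.Prime ∧ (p : ZMod q) = a), Real.log n := by
    rw [sum_filter, sum_filter]
    refine sum_congr rfl fun n _ => ?_
    have h2 : n ≡ c [MOD q] ↔ (n : ZMod q) = a := by
      rw [← hca]
      exact (ZMod.natCast_eq_natCast_iff n c q).symm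
    unfold Pool.Agent.Lib.MP_d57abb_nt.All.lp
    by_cases h3 : n.Prime
    · by_cases h4 : (n : ZMod q) = a
      · rw [if_pos (h2.2 h4), if_pos h3, if_pos ⟨h3, h4⟩]
      · rw [if_neg (fun h => h4 (h2.1 h)), if_neg (fun h => h4 h.2)]
    · rw [if_neg h3, ite_self, if_neg (fun h : n.Prime ∧ (n : ZMod q) = a => h3 h.1)]
  rw [h1, ← nsmul_eq_mul]
  refine sum_le_card_nsmul _ _ _ fun n hn => ?_
  have h2 := mem_Ioc.1 (mem_filter.1 hn).1
  exact Real.log_le_log (by exact_mod_cast h2.1) (by exact_mod_cast h2.2)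

theorem pi_upper : ∃ K y₀ : ℝ, 0 < K ∧ 3 ≤ y₀ ∧ ∀ y : ℕ, y₀ ≤ (y : ℝ) →
    (Nat.primeCounting y : ℝ) ≤ y / Real.log y * (1 + K / Real.log y) := by
  obtain ⟨K, hK⟩ := Chebyshev.primeCounting_sub_theta_div_log_isBigO.bound
  obtain ⟨Y, hY⟩ := eventually_atTop.1 hK
  obtain ⟨y₁, h1⟩ := sw 2 1
  refine ⟨|K| + 1, max (max Y y₁) 3, by positivity, le_max_right _ _, fun y hy => ?_⟩
  have hy3 : (3 : ℝ) ≤ y := (le_max_right _ _).trans hy
  have hyY : Y ≤ (y : ℝ) := ((le_max_left _ _).trans (le_max_left _ _)).trans hy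
  have hy1 : (y₁ : ℝ) ≤ (y : ℝ) := ((le_max_right _ _).trans (le_max_left _ _)).trans hy
  have hy0 : (0 : ℝ) < y := by linarith
  have hL1 : 1 ≤ Real.log y := by
    rw [Real.le_log_iff_exp_le hy0]
    have := Real.exp_one_lt_d9
    linarith
  have hL : 0 < Real.log y := by linarith
  have h2 := hY y hyY
  have h3 := h1 y (by exact_mod_cast hy1) 1 one_pos (by simpa using hL1) 0 (Nat.coprime_one_right 0)
  rw [Nat.floor_natCast] at h2
  have h4 : ∑ n ∈ (Ioc 0 y).filter (fun n => n ≡ 0 [MOD 1]), lp n = Chebyshev.theta y := by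
    unfold Chebyshev.theta
    rw [Nat.floor_natCast, sum_filter, sum_filter]
    refine sum_congr rfl fun n _ => ?_
    rw [if_pos (Nat.modEq_one)]
    rfl
  rw [h4, Nat.totient_one, Nat.cast_one, div_one] at h3
  have h5 := (abs_le.1 h3).2
  have h6 : (Nat.primeCounting y : ℝ) - Chebyshev.theta y / Real.log y ≤ |K| * (y / Real.log y ^ 2) := by
    refine (le_abs_self _).trans ?_
    rw [← Real.norm_eq_abs]
    refine h2.trans ?_
    rw [Real.norm_of_nonneg (by positivity)]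
    exact mul_le_mul_of_nonneg_right (le_abs_self K) (by positivity)
  have h7 : Chebyshev.theta y / Real.log y ≤ (y + y / Real.log y ^ 2) / Real.log y :=
    div_le_div_of_nonneg_right (by linarith) hL.le
  have h8 : (y + y / Real.log y ^ 2) / Real.log y + |K| * (y / Real.log y ^ 2) ≤
      y / Real.log y * (1 + (|K| + 1) / Real.log y) := by
    have e1 : y / Real.log y * (1 + (|K| + 1) / Real.log y) =
        y / Real.log y + |K| * (y / Real.log y ^ 2) + y / Real.log y ^ 2 := by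
      field_simp
      ring
    have e2 : (y + y / Real.log y ^ 2) / Real.log y = y / Real.log y + y / Real.log y ^ 2 / Real.log y := by
      ring
    have e3 : y / Real.log y ^ 2 / Real.log y ≤ y / Real.log y ^ 2 := div_le_self (by positivity) hL1
    rw [e1, e2]
    linarith
  linarith

theorem row_mass : ∃ X : ℝ, 100 ≤ X ∧ ∀ x ≥ X, ∀ q : ℕ, q.Prime → 4 * (q : ℝ) ^ 2 ≤ Real.log x →
    ∀ a : ZMod q, a ≠ 0 → 7 / 8 / ((q : ℝ) - 1) * (Nat.primeCounting ⌊x⌋₊ : ℝ) ≤ row q a x := by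
  obtain ⟨K, y₀, hK, hy₀, hpi⟩ := pi_upper
  obtain ⟨y₁, h1⟩ := sw 2 1
  refine ⟨max (max (y₀ + 1) (y₁ + 1)) (Real.exp (16 * (K + 2)) + 1), ?_, fun x hx q hq hxq a ha => ?_⟩
  · refine le_trans ?_ (le_max_right _ _)
    have h2 := Real.add_one_le_exp (16 * (K + 2))
    have h3 : Real.exp 5 ≤ Real.exp (16 * (K + 2)) := Real.exp_le_exp.2 (by linarith)
    have h4 : (99 : ℝ) ≤ Real.exp 5 := by
      have h6 := Real.exp_one_gt_d9
      have h7 : Real.exp 5 = Real.exp 1 ^ 5 := by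
        rw [← Real.exp_nat_mul]
        norm_num
      rw [h7]
      have h8 : (2.718 : ℝ) ^ 5 ≤ Real.exp 1 ^ 5 := pow_le_pow_left₀ (by norm_num) (by linarith) 5
      norm_num at h8
      linarith
    linarith
  have : NeZero q := ⟨hq.ne_zero⟩
  obtain ⟨y, hy⟩ : ∃ y : ℕ, ⌊x⌋₊ = y := ⟨_, rfl⟩
  have hx0 : y₀ + 1 ≤ x := ((le_max_left _ _).trans (le_max_left _ _)).trans hx
  have hx1 : (y₁ : ℝ) + 1 ≤ x := ((le_max_right _ _).trans (le_max_left _ _)).trans hx
  have hx2 : Real.exp (16 * (K + 2)) + 1 ≤ x := (le_max_right _ _).trans hx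
  have hxy : x < y + 1 := by
    rw [← hy]
    exact Nat.lt_floor_add_one x
  have hyx : (y : ℝ) ≤ x := by
    rw [← hy]
    exact Nat.floor_le (by linarith)
  have hy0 : y₀ ≤ y := by linarith
  have hy1 : (y₁ : ℝ) ≤ y := by linarith
  have hy2 : Real.exp (16 * (K + 2)) ≤ y := by linarith
  have hyp : (0 : ℝ) < y := by linarith
  have hLK : 16 * (K + 2) ≤ Real.log y := (Real.le_log_iff_exp_le hyp).2 hy2
  have hL : 0 < Real.log y := by linarith
  have hq2 : (2 : ℝ) ≤ q := by exact_mod_cast hq.two_le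
  have hq1 : (0 : ℝ) < (q : ℝ) - 1 := by linarith
  have hlogx : Real.log x ≤ Real.log y + 1 := by
    have h2 : x ≤ y * Real.exp 1 := by
      have := Real.exp_one_gt_d9
      nlinarith
    have h3 := Real.log_le_log (by linarith) h2
    rw [Real.log_mul hyp.ne' (Real.exp_pos 1).ne', Real.log_exp] at h3
    exact h3
  have hqL : (q : ℝ) ≤ Real.log y := by nlinarith
  have hcop : Nat.Coprime a.val q := by
    rw [Nat.coprime_comm]
    refine (Nat.Prime.coprime_iff_not_dvd hq).2 fun h => ?_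
    have h2 := Nat.eq_zero_of_dvd_of_lt h (ZMod.val_lt a)
    exact ha ((ZMod.val_eq_zero a).1 h2)
  have h2 := h1 y (by exact_mod_cast hy1) q hq.pos (by rw [pow_one]; exact hqL) a.val hcop
  rw [Nat.totient_prime hq, Nat.cast_sub hq.one_lt.le, Nat.cast_one] at h2
  have h3 := (abs_le.1 h2).1
  have h4 := theta_le q a.val a (ZMod.natCast_zmod_val a) y
  have h5 : (((Ioc 0 y).filter (fun p : ℕ => p.Prime ∧ (p : ZMod q) = a)).card : ℝ) ≤ row q a x := by
    exact_mod_cast row_ge q a y x hy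
  have h6 : (y : ℝ) / ((q : ℝ) - 1) - y / Real.log y ^ 2 ≤ row q a x * Real.log y := by
    have := mul_le_mul_of_nonneg_right h5 hL.le
    linarith
  have h7 := hpi y hy0
  rw [hy]
  have h8 : 7 / 8 / ((q : ℝ) - 1) * (Nat.primeCounting y : ℝ) ≤
      7 / 8 / ((q : ℝ) - 1) * (y / Real.log y * (1 + K / Real.log y)) :=
    mul_le_mul_of_nonneg_left h7 (by positivity)
  refine h8.trans ?_
  rw [← mul_le_mul_iff_left₀ hL]
  refine le_trans ?_ h6
  have e1 : 7 / 8 / ((q : ℝ) - 1) * (y / Real.log y * (1 + K / Real.log y)) * Real.log y =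
      y / ((q : ℝ) - 1) * (7 / 8 * (1 + K / Real.log y)) := by
    field_simp
  have e2 : (y : ℝ) / ((q : ℝ) - 1) - y / Real.log y ^ 2 =
      y / ((q : ℝ) - 1) * (1 - ((q : ℝ) - 1) / Real.log y ^ 2) := by
    field_simp
  rw [e1, e2]
  refine mul_le_mul_of_nonneg_left ?_ (by positivity)
  have h9 : K / Real.log y ≤ 1 / 16 := by
    rw [div_le_div_iff₀ hL (by norm_num)]
    linarith
  have h10 : ((q : ℝ) - 1) / Real.log y ^ 2 ≤ 1 / 16 := by
    rw [div_le_div_iff₀ (by positivity) (by norm_num)]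
    nlinarith
  linarith

theorem spread_gen {C : ℝ} (hC : 0 < C) {q k : ℕ} [NeZero q] (hq : q.Prime) (f : ZMod q → ZMod q → ℝ)
    (hS : ∀ S : Finset (ZMod q × ZMod q),
      ∑ s ∈ S, f s.1 s.2 ≤ C * Real.sqrt (k * S.card) / ((q : ℝ) - 1)) (m : ℕ) {ε : ℝ} (hε : 0 < ε) (A : Finset (ZMod q))
    (hA : ∀ a ∈ A, ∃ B : Finset (ZMod q), B.card ≤ m ∧ ε / ((q : ℝ) - 1) < ∑ b ∈ B, f a b) :
    (A.card : ℝ) ≤ C ^ 2 * k * m / ε ^ 2 := by
  classical
  have hq2 : (2 : ℝ) ≤ q := by exact_mod_cast hq.two_le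
  have hq1 : (0 : ℝ) < (q : ℝ) - 1 := by linarith
  choose! B hB1 hB2 using hA
  obtain ⟨S, hSd⟩ : ∃ S : Finset (ZMod q × ZMod q), S = A.biUnion (fun a => (B a).image (fun b => (a, b))) := ⟨_, rfl⟩
  have hdisj : (A : Set (ZMod q)).PairwiseDisjoint (fun a => (B a).image (fun b => (a, b))) := by
    intro a _ a' _ hne
    rw [Function.onFun, disjoint_left]
    intro s h1 h2
    rw [mem_image] at h1 h2
    obtain ⟨b, _, rfl⟩ := h1
    obtain ⟨b', _, h3⟩ := h2
    exact hne (Prod.mk.inj h3).1.symm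
  have hinj : ∀ a : ZMod q, Function.Injective (fun b : ZMod q => (a, b)) := fun a b b' h => (Prod.mk.inj h).2
  have hScard : (S.card : ℝ) ≤ A.card * m := by
    rw [hSd, card_biUnion fun a ha a' ha' hne => hdisj ha ha' hne]
    push_cast
    refine (sum_le_card_nsmul _ _ (m : ℝ) fun a ha => ?_).trans (by rw [nsmul_eq_mul])
    rw [card_image_of_injective _ (hinj a)]
    exact_mod_cast hB1 a ha
  have hlow : A.card * (ε / ((q : ℝ) - 1)) ≤ ∑ s ∈ S, f s.1 s.2 := by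
    rw [hSd, sum_biUnion hdisj, ← nsmul_eq_mul]
    refine card_nsmul_le_sum _ _ _ fun a ha => ?_
    rw [sum_image fun b _ b' _ h => hinj a h]
    exact (hB2 a ha).le
  have hup := hlow.trans (hS S)
  have h1 : (A.card : ℝ) * ε ≤ C * Real.sqrt (k * (A.card * m)) := by
    have h2 : Real.sqrt (k * S.card) ≤ Real.sqrt (k * (A.card * m)) :=
      Real.sqrt_le_sqrt (mul_le_mul_of_nonneg_left hScard (Nat.cast_nonneg k))
    rw [mul_div_assoc', div_le_div_iff_of_pos_right hq1] at hup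
    exact hup.trans (mul_le_mul_of_nonneg_left h2 hC.le)
  rcases Nat.eq_zero_or_pos A.card with h0 | h0
  · rw [h0, Nat.cast_zero]
    positivity
  · have hA0 : (0 : ℝ) < A.card := by exact_mod_cast h0
    have h3 : ((A.card : ℝ) * ε) ^ 2 ≤ (C * Real.sqrt (k * (A.card * m))) ^ 2 :=
      pow_le_pow_left₀ (by positivity) h1 2
    rw [mul_pow, mul_pow, Real.sq_sqrt (by positivity)] at h3
    rw [le_div_iff₀ (by positivity)]
    have h4 : (A.card : ℝ) * (A.card * ε ^ 2) ≤ A.card * (C ^ 2 * k * m) := by nlinarith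
    exact le_of_mul_le_mul_left h4 hA0

theorem rows_gen {C c : ℝ} (hC : 0 < C) (hc : c ≤ 1 / 8) {q k : ℕ} [NeZero q] (hq : q.Prime)
    (f : ZMod q → ZMod q → ℝ)
    (hS : ∀ S : Finset (ZMod q × ZMod q),
      ∑ s ∈ S, f s.1 s.2 ≤ C * Real.sqrt (k * S.card) / ((q : ℝ) - 1))
    (hf : ∀ a, f a 0 ≤ 1 / 8 / ((q : ℝ) - 1)) (hr : ∀ a, a ≠ 0 → 3 / 4 / ((q : ℝ) - 1) ≤ ∑ b, f a b) (m : ℕ) :
    (Nat.card {a : ZMod q // a ≠ 0 ∧
      Nat.card {b : ZMod q // b ≠ 0 ∧ c / ((q : ℝ) - 1) ^ 2 ≤ f a b} < m} : ℝ) ≤ 16 * C ^ 2 * k * m := by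
  classical
  have hq2 : (2 : ℝ) ≤ q := by exact_mod_cast hq.two_le
  have hq1 : (0 : ℝ) < (q : ℝ) - 1 := by linarith
  rw [Nat.card_eq_fintype_card, Fintype.card_subtype]
  have h1 := spread_gen hC hq f hS m (show (0 : ℝ) < 1 / 4 by norm_num)
    (univ.filter fun a : ZMod q => a ≠ 0 ∧
      Nat.card {b : ZMod q // b ≠ 0 ∧ c / ((q : ℝ) - 1) ^ 2 ≤ f a b} < m) (fun a ha => ?_)
  · refine h1.trans (le_of_eq ?_)
    ring
  obtain ⟨_, ha0, ham⟩ := mem_filter.1 ha
  rw [Nat.card_eq_fintype_card, Fintype.card_subtype] at ham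
  refine ⟨univ.filter fun b : ZMod q => b ≠ 0 ∧ c / ((q : ℝ) - 1) ^ 2 ≤ f a b, ham.le, ?_⟩
  have h2 := hr a ha0
  have h3 : ∑ b, f a b = ∑ b ∈ univ.filter (fun b : ZMod q => b ≠ 0 ∧ c / ((q : ℝ) - 1) ^ 2 ≤ f a b), f a b +
      ∑ b ∈ univ.filter (fun b : ZMod q => ¬ (b ≠ 0 ∧ c / ((q : ℝ) - 1) ^ 2 ≤ f a b)), f a b :=
    (sum_filter_add_sum_filter_not univ _ _).symm
  have h4 : ∑ b ∈ univ.filter (fun b : ZMod q => ¬ (b ≠ 0 ∧ c / ((q : ℝ) - 1) ^ 2 ≤ f a b)), f a b ≤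
      1 / 8 / ((q : ℝ) - 1) + 1 / 8 / ((q : ℝ) - 1) := by
    have h5 : (0 : ZMod q) ∈ univ.filter (fun b : ZMod q => ¬ (b ≠ 0 ∧ c / ((q : ℝ) - 1) ^ 2 ≤ f a b)) := by
      rw [mem_filter]
      exact ⟨mem_univ _, fun h => h.1 rfl⟩
    rw [← add_sum_erase _ _ h5]
    refine add_le_add (hf a) ?_
    have h6 : ∀ b ∈ (univ.filter (fun b : ZMod q => ¬ (b ≠ 0 ∧ c / ((q : ℝ) - 1) ^ 2 ≤ f a b))).erase 0,
        f a b ≤ 1 / 8 / ((q : ℝ) - 1) ^ 2 := by
      intro b hb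
      rw [mem_erase, mem_filter] at hb
      have h7 : ¬ c / ((q : ℝ) - 1) ^ 2 ≤ f a b := fun h => hb.2.2 ⟨hb.1, h⟩
      push Not at h7
      exact h7.le.trans (div_le_div_of_nonneg_right hc (by positivity))
    refine (sum_le_card_nsmul _ _ _ h6).trans ?_
    rw [nsmul_eq_mul]
    have h7 : (((univ.filter (fun b : ZMod q => ¬ (b ≠ 0 ∧ c / ((q : ℝ) - 1) ^ 2 ≤ f a b))).erase 0).card : ℝ) ≤
        (q : ℝ) - 1 := by
      have h8 : ((univ.filter (fun b : ZMod q => ¬ (b ≠ 0 ∧ c / ((q : ℝ) - 1) ^ 2 ≤ f a b))).erase 0).card ≤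
          ((univ : Finset (ZMod q)).erase 0).card := card_le_card (erase_subset_erase _ (filter_subset _ _))
      rw [card_erase_of_mem (mem_univ _), card_univ, ZMod.card] at h8
      have h9 : ((q - 1 : ℕ) : ℝ) = (q : ℝ) - 1 := by
        rw [Nat.cast_sub hq.one_lt.le, Nat.cast_one]
      exact (Nat.cast_le.2 h8).trans h9.le
    calc _ ≤ ((q : ℝ) - 1) * (1 / 8 / ((q : ℝ) - 1) ^ 2) := mul_le_mul_of_nonneg_right h7 (by positivity)
      _ = 1 / 8 / ((q : ℝ) - 1) := by field_simp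
  have h5 : (0 : ℝ) < 1 / ((q : ℝ) - 1) := by positivity
  have e1 : 3 / 4 / ((q : ℝ) - 1) = 3 / 4 * (1 / ((q : ℝ) - 1)) := by ring
  have e2 : 1 / 8 / ((q : ℝ) - 1) = 1 / 8 * (1 / ((q : ℝ) - 1)) := by ring
  have e3 : 1 / 4 / ((q : ℝ) - 1) = 1 / 4 * (1 / ((q : ℝ) - 1)) := by ring
  rw [e1] at h2
  rw [e2] at h4
  rw [e3]
  linarith

theorem fab_row (q k : ℕ) [NeZero q] (a : ZMod q) (x : ℝ) :
    ∑ b, fab q k a b x = (row q a x : ℝ) / (Nat.primeCounting ⌊x⌋₊ : ℝ) := by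
  classical
  unfold fab row
  rw [← sum_div]
  congr 1
  rw [← Nat.cast_sum]
  congr 1
  rw [card_eq_sum_card_fiberwise (f := fun n : ℕ => ((Nat.nth Nat.Prime (n + k) : ℕ) : ZMod q)) (t := univ)
    (fun n _ => mem_univ _)]
  refine sum_congr rfl fun b _ => ?_
  rw [filter_filter]

theorem fab_col (q k : ℕ) [NeZero q] (b : ZMod q) (x : ℝ) :
    ((row q b x : ℝ) - k) / (Nat.primeCounting ⌊x⌋₊ : ℝ) ≤ ∑ a, fab q k a b x := by
  classical
  unfold fab
  rw [← sum_div]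
  refine div_le_div_of_nonneg_right ?_ (Nat.cast_nonneg _)
  rw [← Nat.cast_sum]
  have h1 : ∑ a : ZMod q, ((range (Nat.primeCounting ⌊x⌋₊)).filter
      (fun n => ((Nat.nth Nat.Prime n : ℕ) : ZMod q) = a ∧ ((Nat.nth Nat.Prime (n + k) : ℕ) : ZMod q) = b)).card =
      ((range (Nat.primeCounting ⌊x⌋₊)).filter (fun n => ((Nat.nth Nat.Prime (n + k) : ℕ) : ZMod q) = b)).card := by
    rw [card_eq_sum_card_fiberwise (f := fun n : ℕ => ((Nat.nth Nat.Prime n : ℕ) : ZMod q)) (t := univ)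
      (s := (range (Nat.primeCounting ⌊x⌋₊)).filter (fun n => ((Nat.nth Nat.Prime (n + k) : ℕ) : ZMod q) = b))
      (fun n _ => mem_univ _)]
    refine sum_congr rfl fun a _ => ?_
    rw [filter_filter]
    congr 1
    exact filter_congr fun n _ => and_comm
  rw [h1]
  have h2 : row q b x ≤ ((range (Nat.primeCounting ⌊x⌋₊)).filter
      (fun n => ((Nat.nth Nat.Prime (n + k) : ℕ) : ZMod q) = b)).card + k := by
    unfold row
    have h3 : (range (Nat.primeCounting ⌊x⌋₊)).filter (fun n => ((Nat.nth Nat.Prime n : ℕ) : ZMod q) = b) ⊆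
        ((range (Nat.primeCounting ⌊x⌋₊)).filter
          (fun n => ((Nat.nth Nat.Prime (n + k) : ℕ) : ZMod q) = b)).image (fun n => n + k) ∪ range k := by
      intro n hn
      obtain ⟨h4, h5⟩ := mem_filter.1 hn
      rw [mem_union]
      by_cases h6 : n < k
      · right
        exact mem_range.2 h6
      · left
        have h7 : n - k + k = n := by omega
        rw [mem_image]
        refine ⟨n - k, mem_filter.2 ⟨mem_range.2 (by have := mem_range.1 h4; omega), ?_⟩, h7⟩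
        rw [h7]
        exact h5
    refine (card_le_card h3).trans ((card_union_le _ _).trans ?_)
    rw [card_range]
    exact Nat.add_le_add_right card_image_le _
  have h3 : (row q b x : ℝ) ≤ (((range (Nat.primeCounting ⌊x⌋₊)).filter
      (fun n => ((Nat.nth Nat.Prime (n + k) : ℕ) : ZMod q) = b)).card : ℝ) + k := by
    exact_mod_cast h2
  linarith

/-- few `n` with `p_n = q` -/
theorem fab_zero_left (q k : ℕ) (hq : q.Prime) (b : ZMod q) (x : ℝ) :
    fab q k 0 b x ≤ 1 / (Nat.primeCounting ⌊x⌋₊ : ℝ) := by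
  unfold fab
  refine div_le_div_of_nonneg_right ?_ (Nat.cast_nonneg _)
  have h1 : ((range (Nat.primeCounting ⌊x⌋₊)).filter
      (fun n => ((Nat.nth Nat.Prime n : ℕ) : ZMod q) = 0 ∧ ((Nat.nth Nat.Prime (n + k) : ℕ) : ZMod q) = b)).card ≤ 1 := by
    rw [card_le_one]
    intro n hn n' hn'
    have h2 := (Nat.prime_dvd_prime_iff_eq hq (Nat.prime_nth_prime n)).1
        ((ZMod.natCast_eq_zero_iff _ _).1 (mem_filter.1 hn).2.1)
    have h3 := (Nat.prime_dvd_prime_iff_eq hq (Nat.prime_nth_prime n')).1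
        ((ZMod.natCast_eq_zero_iff _ _).1 (mem_filter.1 hn').2.1)
    exact nth_mono.injective (h2.symm.trans h3)
  exact_mod_cast h1

theorem fab_zero_right (q k : ℕ) (hq : q.Prime) (a : ZMod q) (x : ℝ) :
    fab q k a 0 x ≤ 1 / (Nat.primeCounting ⌊x⌋₊ : ℝ) := by
  unfold fab
  refine div_le_div_of_nonneg_right ?_ (Nat.cast_nonneg _)
  have h1 : ((range (Nat.primeCounting ⌊x⌋₊)).filter
      (fun n => ((Nat.nth Nat.Prime n : ℕ) : ZMod q) = a ∧ ((Nat.nth Nat.Prime (n + k) : ℕ) : ZMod q) = 0)).card ≤ 1 := by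
    rw [card_le_one]
    intro n hn n' hn'
    have h2 := (Nat.prime_dvd_prime_iff_eq hq (Nat.prime_nth_prime (n + k))).1
        ((ZMod.natCast_eq_zero_iff _ _).1 (mem_filter.1 hn).2.2)
    have h3 := (Nat.prime_dvd_prime_iff_eq hq (Nat.prime_nth_prime (n' + k))).1
        ((ZMod.natCast_eq_zero_iff _ _).1 (mem_filter.1 hn').2.2)
    have h4 := nth_mono.injective (h2.symm.trans h3)
    omega
  exact_mod_cast h1

/-- almost all rows and columns have many large entries -/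
theorem rows_cols : ∃ X : ℝ, 100 ≤ X ∧ ∀ x ≥ X, ∀ q k : ℕ, q.Prime → 4 * (q : ℝ) ^ 2 ≤ Real.log x →
    ∀ C c : ℝ, 1 ≤ C → c ≤ 1 / 8 →
    (∀ S : Finset (ZMod q × ZMod q),
      ∑ s ∈ S, fab q k s.1 s.2 x ≤ C * Real.sqrt (k * S.card) / ((q : ℝ) - 1)) → ∀ m : ℕ,
    (Nat.card {a : ZMod q // a ≠ 0 ∧
      Nat.card {b : ZMod q // b ≠ 0 ∧ c / ((q : ℝ) - 1) ^ 2 ≤ fab q k a b x} < m} : ℝ) ≤ 16 * C ^ 2 * k * m ∧
    (Nat.card {b : ZMod q // b ≠ 0 ∧
      Nat.card {a : ZMod q // a ≠ 0 ∧ c / ((q : ℝ) - 1) ^ 2 ≤ fab q k a b x} < m} : ℝ) ≤ 16 * C ^ 2 * k * m := by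
  classical
  obtain ⟨X, hX100, hX⟩ := row_mass
  refine ⟨max X (Real.exp 24), hX100.trans (le_max_left _ _), fun x hx q k hq hxq C c hC hc hS m => ?_⟩
  have : NeZero q := ⟨hq.ne_zero⟩
  have hC0 : 0 < C := by linarith
  have hxX : X ≤ x := (le_max_left _ _).trans hx
  have hx100 : 100 ≤ x := hX100.trans hxX
  have hx0 : 0 < x := by linarith
  have hL : 24 ≤ Real.log x := (Real.le_log_iff_exp_le hx0).2 ((le_max_right _ _).trans hx)
  have hπ := cheb hx100
  have hq2 : (2 : ℝ) ≤ q := by exact_mod_cast hq.two_le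
  have hq1 : (0 : ℝ) < (q : ℝ) - 1 := by linarith
  have hlog : 4 * Real.log x ^ 2 ≤ x := by
    have h1 := Real.pow_div_factorial_le_exp (x := Real.log x) (by linarith) 3
    rw [Real.exp_log hx0] at h1
    norm_num [Nat.factorial] at h1
    nlinarith [sq_nonneg (Real.log x)]
  have hπq : 8 * ((q : ℝ) * ((q : ℝ) - 1)) ≤ (Nat.primeCounting ⌊x⌋₊ : ℝ) := by
    have h1 : 4 * Real.log x ≤ x / Real.log x := by
      rw [le_div_iff₀ (by linarith)]
      nlinarith
    nlinarith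
  have hπ0 : (0 : ℝ) < Nat.primeCounting ⌊x⌋₊ := by
    have : 0 < 8 * ((q : ℝ) * ((q : ℝ) - 1)) := by positivity
    linarith
  have h8 : 1 / (Nat.primeCounting ⌊x⌋₊ : ℝ) ≤ 1 / 8 / ((q : ℝ) - 1) := by
    rw [div_div, div_le_div_iff₀ hπ0 (by positivity)]
    nlinarith
  have hrow : ∀ a : ZMod q, a ≠ 0 → 7 / 8 / ((q : ℝ) - 1) ≤ (row q a x : ℝ) / (Nat.primeCounting ⌊x⌋₊ : ℝ) := by
    intro a ha
    rw [le_div_iff₀ hπ0]
    exact hX x hxX q hq hxq a ha
  have h78 : 3 / 4 / ((q : ℝ) - 1) = 7 / 8 / ((q : ℝ) - 1) - 1 / 8 / ((q : ℝ) - 1) := by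
    ring
  have h1p : 0 < 1 / 8 / ((q : ℝ) - 1) := by positivity
  refine ⟨?_, ?_⟩
  · refine rows_gen hC0 hc hq (fun a b => fab q k a b x) hS
      (fun a => (fab_zero_right q k hq a x).trans h8) (fun a ha => ?_) m
    rw [fab_row]
    have := hrow a ha
    linarith
  · rcases Nat.eq_zero_or_pos m with rfl | hm
    · simp
    by_cases hbig : (q : ℝ) ≤ 16 * C ^ 2 * k * m
    · refine le_trans ?_ hbig
      rw [Nat.card_eq_fintype_card, Fintype.card_subtype]
      have h1 := card_filter_le (univ : Finset (ZMod q)) (fun b : ZMod q => b ≠ 0 ∧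
        Nat.card {a : ZMod q // a ≠ 0 ∧ c / ((q : ℝ) - 1) ^ 2 ≤ fab q k a b x} < m)
      rw [card_univ, ZMod.card] at h1
      exact_mod_cast h1
    push Not at hbig
    have hm1 : (1 : ℝ) ≤ m := by exact_mod_cast hm
    have hk0 : (0 : ℝ) ≤ k := Nat.cast_nonneg k
    have hC2 : (1 : ℝ) ≤ C ^ 2 := one_le_pow₀ hC
    have hkq : 16 * (k : ℝ) ≤ q := by
      have h1 : (k : ℝ) ≤ C ^ 2 * k := le_mul_of_one_le_left hk0 hC2
      have h2 : C ^ 2 * (k : ℝ) ≤ C ^ 2 * k * m := le_mul_of_one_le_right (by positivity) hm1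
      linarith
    have hk8 : (k : ℝ) / (Nat.primeCounting ⌊x⌋₊ : ℝ) ≤ 1 / 8 / ((q : ℝ) - 1) := by
      rw [div_div, div_le_div_iff₀ hπ0 (by positivity)]
      nlinarith
    refine rows_gen hC0 hc hq (fun b a => fab q k a b x) (fun S => ?_)
      (fun b => (fab_zero_left q k hq b x).trans h8) (fun b hb => ?_) m
    · have h1 := hS (S.image Prod.swap)
      rw [sum_image fun s _ t _ h => Prod.swap_injective h, card_image_of_injective _ Prod.swap_injective] at h1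
      exact h1
    · refine le_trans ?_ (fab_col q k b x)
      have h2 := hrow b hb
      rw [sub_div]
      linarith

end Pool.Agent.Lib.MP_252578_ntA
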