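import Pool.Agent.Lib.MP_252578_ntA.Sv
import Pool.Agent.Lib.MP_252578_ntA.Avg
import Pool.Agent.Lib.MP_252578_ntA.Gap

/-!
# Pairs of primes: from the sequence of the primes to the sieve
-/

set_option autoImplicit false

namespace Pool.Agent.Lib.MP_252578_ntA

open Finset

/-- the number of the `n` with `p_n ≤ x` such that the pair of the classes of `p_n`, `p_{n+k}` modulo `q` is in `S`
(`p_0 = 2`, `p_1 = 3`, ...) -/
noncomputable def cnt (q k : ℕ) (S : Finset (ZMod q × ZMod q)) (x : ℝ) : ℕ :=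
  ((range (Nat.primeCounting ⌊x⌋₊)).filter (fun n : ℕ =>
    (((Nat.nth Nat.Prime n : ℕ) : ZMod q), ((Nat.nth Nat.Prime (n + k) : ℕ) : ZMod q)) ∈ S)).card

theorem nth_mono : StrictMono (Nat.nth Nat.Prime) := Nat.nth_strictMono Nat.infinite_setOf_prime

theorem nth_le {N n : ℕ} (h : n < Nat.primeCounting N) : Nat.nth Nat.Prime n ≤ N := by
  have h1 : n < Nat.count Nat.Prime (N + 1) := h
  have h2 := Nat.nth_lt_of_lt_count h1
  omega

theorem pairs_count {q k : ℕ} (hk : 1 ≤ k) (S : Finset (ZMod q × ZMod q)) (x : ℝ) (H : ℕ) :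
    cnt q k S x ≤ ((range (Nat.primeCounting ⌊x⌋₊)).filter
        (fun n => Nat.nth Nat.Prime n + H < Nat.nth Nat.Prime (n + k))).card +
      ∑ s ∈ S, ∑ h ∈ (Icc 1 H).filter (fun h : ℕ => (h : ZMod q) = s.2 - s.1), (ZZ q ⌊x⌋₊ h s.1).card := by
  classical
  unfold cnt
  obtain ⟨F, hF⟩ : ∃ F : Finset ℕ, F = S.biUnion (fun s => ((Icc 1 H).filter
    (fun h : ℕ => (h : ZMod q) = s.2 - s.1)).biUnion (fun h => ZZ q ⌊x⌋₊ h s.1)) := ⟨_, rfl⟩
  have hcF : F.card ≤ ∑ s ∈ S, ∑ h ∈ (Icc 1 H).filter (fun h : ℕ => (h : ZMod q) = s.2 - s.1),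
      (ZZ q ⌊x⌋₊ h s.1).card := by
    rw [hF]
    refine card_biUnion_le.trans (sum_le_sum fun s _ => ?_)
    exact card_biUnion_le
  have hsub : ((range (Nat.primeCounting ⌊x⌋₊)).filter (fun n : ℕ =>
      (((Nat.nth Nat.Prime n : ℕ) : ZMod q), ((Nat.nth Nat.Prime (n + k) : ℕ) : ZMod q)) ∈ S)) ⊆
      (range (Nat.primeCounting ⌊x⌋₊)).filter (fun n => Nat.nth Nat.Prime n + H < Nat.nth Nat.Prime (n + k)) ∪
      (range (Nat.primeCounting ⌊x⌋₊)).filter (fun n => Nat.nth Nat.Prime n ∈ F) := by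
    intro n hn
    rw [mem_filter] at hn
    rw [mem_union, mem_filter, mem_filter]
    by_cases h : Nat.nth Nat.Prime n + H < Nat.nth Nat.Prime (n + k)
    · exact Or.inl ⟨hn.1, h⟩
    · refine Or.inr ⟨hn.1, ?_⟩
      push Not at h
      have h1 : Nat.nth Nat.Prime n < Nat.nth Nat.Prime (n + k) := nth_mono (by omega)
      obtain ⟨d, hd⟩ : ∃ d, Nat.nth Nat.Prime (n + k) = Nat.nth Nat.Prime n + d :=
        ⟨Nat.nth Nat.Prime (n + k) - Nat.nth Nat.Prime n, by omega⟩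
      rw [hF, mem_biUnion]
      refine ⟨_, hn.2, ?_⟩
      rw [mem_biUnion]
      refine ⟨d, ?_, ?_⟩
      · rw [mem_filter, mem_Icc]
        refine ⟨⟨by omega, by omega⟩, ?_⟩
        rw [hd]
        push_cast
        ring
      · unfold ZZ
        rw [mem_filter, mem_Icc]
        have hp : (Nat.nth Nat.Prime n).Prime := Nat.prime_nth_prime n
        refine ⟨⟨hp.one_lt.le, nth_le (mem_range.1 hn.1)⟩, hp, ?_, rfl⟩
        rw [← hd]
        exact Nat.prime_nth_prime _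
  refine (card_le_card hsub).trans ((card_union_le _ _).trans (Nat.add_le_add_left ?_ _))
  refine le_trans ?_ hcF
  refine card_le_card_of_injOn (Nat.nth Nat.Prime) (fun n hn => ?_) nth_mono.injective.injOn
  rw [coe_filter, Set.mem_setOf_eq] at hn
  exact hn.2

private theorem Pai_triv {q N h : ℕ} (hq : q.Prime) (a : ZMod q)
    (hc : ¬ 2 ∣ h ∨ a = 0 ∨ a + h = 0) : (ZZ q N h a).card ≤ 1 := by
  rw [card_le_one]
  unfold ZZ
  intro p hp p' hp'
  rw [mem_filter] at hp hp'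
  obtain ⟨_, hp1, hp2, hp3⟩ := hp
  obtain ⟨_, hq1, hq2, hq3⟩ := hp'
  rcases hc with hc | hc | hc
  · have key : ∀ r : ℕ, r.Prime → (r + h).Prime → r = 2 := by
      intro r hr hrh
      by_contra h2
      have h3 : r % 2 = 1 := hr.eq_two_or_odd.resolve_left h2
      have h4 := hrh.eq_two_or_odd
      have h5 := hr.two_le
      omega
    rw [key p hp1 hp2, key p' hq1 hq2]
  · have key : ∀ r : ℕ, r.Prime → (r : ZMod q) = a → r = q := by
      intro r hr hra
      rw [hc] at hra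
      exact ((Nat.prime_dvd_prime_iff_eq hq hr).1 ((ZMod.natCast_eq_zero_iff _ _).1 hra)).symm
    rw [key p hp1 hp3, key p' hq1 hq3]
  · have key : ∀ r : ℕ, (r + h).Prime → (r : ZMod q) = a → r + h = q := by
      intro r hr hra
      have h1 : ((r + h : ℕ) : ZMod q) = 0 := by
        push_cast
        rw [hra]
        exact hc
      exact ((Nat.prime_dvd_prime_iff_eq hq hr).1 ((ZMod.natCast_eq_zero_iff _ _).1 h1)).symm
    have h1 := key p hp2 hp3
    have h2 := key p' hq2 hq3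
    omega

theorem pairs_sum : ∃ K : ℕ, 1 ≤ K ∧ ∀ z : ℕ, 2 ≤ z → ∀ q N H : ℕ, q.Prime → 4 * q ^ 2 ≤ H →
    ∀ S : Finset (ZMod q × ZMod q),
      ((∑ s ∈ S, ∑ h ∈ (Icc 1 H).filter (fun h : ℕ => (h : ZMod q) = s.2 - s.1),
        (ZZ q N h s.1).card : ℕ) : ℝ) ≤
      S.card * (H * (1 + z + (z : ℝ) ^ (2 * K)) + 96 * ((N : ℝ) * H / q ^ 2) * (1 / Real.log z) ^ 2) := by
  classical
  obtain ⟨K, hK1, hK⟩ := sieve_pairs
  refine ⟨K, hK1, fun z hz q N H hq hH S => ?_⟩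
  have hq0 : (0 : ℝ) < q := by exact_mod_cast hq.pos
  have hz0 : (0 : ℝ) ≤ z := Nat.cast_nonneg z
  have hgen : ∀ h ∈ Icc 1 H, ∀ a : ZMod q, ((ZZ q N h a).card : ℝ) ≤
      (1 + z + (z : ℝ) ^ (2 * K)) + 16 * ((N : ℝ) / q) * (1 / Real.log z) ^ 2 * sg h := by
    intro h hh a
    rw [mem_Icc] at hh
    have hsg : 0 ≤ sg h := by
      unfold sg
      positivity
    have hmain : 0 ≤ 16 * ((N : ℝ) / q) * (1 / Real.log z) ^ 2 * sg h := by positivity
    by_cases hc : ¬ 2 ∣ h ∨ a = 0 ∨ a + h = 0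
    · have h1 := Pai_triv (N := N) hq a hc
      have h2 : ((ZZ q N h a).card : ℝ) ≤ 1 := by exact_mod_cast h1
      have h3 : (0 : ℝ) ≤ (z : ℝ) ^ (2 * K) := by positivity
      linarith
    · push Not at hc
      have h1 := hK z hz q N h hq hh.1 hc.1 a hc.2.1 hc.2.2
      linarith
  push_cast
  have hs : ∀ s ∈ S, ∑ h ∈ (Icc 1 H).filter (fun h : ℕ => (h : ZMod q) = s.2 - s.1), ((ZZ q N h s.1).card : ℝ) ≤
      H * (1 + z + (z : ℝ) ^ (2 * K)) + 96 * ((N : ℝ) * H / q ^ 2) * (1 / Real.log z) ^ 2 := by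
    intro s _
    refine (sum_le_sum fun h hh => hgen h (mem_filter.1 hh).1 s.1).trans ?_
    rw [sum_add_distrib, sum_const, nsmul_eq_mul, ← mul_sum]
    refine add_le_add ?_ ?_
    · refine mul_le_mul_of_nonneg_right ?_ (by positivity)
      have h1 := card_filter_le (Icc 1 H) (fun h : ℕ => (h : ZMod q) = s.2 - s.1)
      rw [Nat.card_Icc, Nat.add_sub_cancel] at h1
      exact_mod_cast h1
    · have h1 := avg_bound hq H hH (s.2 - s.1)
      have h2 : (0 : ℝ) ≤ 16 * ((N : ℝ) / q) * (1 / Real.log z) ^ 2 := by positivity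
      refine (mul_le_mul_of_nonneg_left h1 h2).trans (le_of_eq ?_)
      field_simp
      ring
  refine (sum_le_sum hs).trans ?_
  rw [sum_const, nsmul_eq_mul]

end Pool.Agent.Lib.MP_252578_ntA
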