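import Pool.Agent.Lib.MP_252578_ntA.Cnt

/-!
# The product of the sieve

`∏_{p ≤ z, p ≠ q} (1 - g p) ≤ 8 V² ∑_{d ∣ h} 1/d`, `V = ∏_{p ≤ z} (1 - 1/p)`.
-/

set_option autoImplicit false

namespace Pool.Agent.Lib.MP_252578_ntA

open Finset

/-- the primes up to `z` -/
def PZ (z : ℕ) : Finset ℕ := (Icc 1 z).filter Nat.Prime

/-- the density without the prime `q` -/
noncomputable def gq (q h p : ℕ) : ℝ := if p = q then 0 else gh h p

/-- `∑_{d ∣ h} 1/d` -/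
noncomputable def sg (h : ℕ) : ℝ := ∑ d ∈ h.divisors, 1 / (d : ℝ)

private theorem Prd_sq (z : ℕ) (hz : 1 ≤ z) : 1 / 2 ≤ ∏ p ∈ PZ z, (1 - 1 / (p : ℝ) ^ 2) := by
  have h1 : ∀ n : ℕ, 1 ≤ n → ∏ p ∈ Icc 2 n, (1 - 1 / (p : ℝ) ^ 2) = ((n : ℝ) + 1) / (2 * n) := by
    intro n hn
    induction n, hn using Nat.le_induction with
    | base =>
      rw [Icc_eq_empty (by norm_num), prod_empty]
      norm_num
    | succ n hn ih =>
      have hn0 : (0 : ℝ) < n := by exact_mod_cast hn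
      rw [← insert_Icc_right_eq_Icc_add_one (by omega : 2 ≤ n + 1), prod_insert (by simp), ih]
      push_cast
      field_simp
      ring
  have h2 : ∏ p ∈ Icc 2 z, (1 - 1 / (p : ℝ) ^ 2) ≤ ∏ p ∈ PZ z, (1 - 1 / (p : ℝ) ^ 2) := by
    have hsub : PZ z ⊆ Icc 2 z := by
      intro p hp
      unfold PZ at hp
      rw [mem_filter, mem_Icc] at hp
      exact mem_Icc.2 ⟨hp.2.two_le, hp.1.2⟩
    rw [← prod_sdiff hsub]
    refine mul_le_of_le_one_left ?_ ?_
    · refine prod_nonneg fun p hp => ?_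
      have h3 : (1 : ℝ) ≤ p := by
        exact_mod_cast (mem_Icc.1 (hsub hp)).1.trans' (by norm_num)
      have h4 : 1 / (p : ℝ) ^ 2 ≤ 1 := by
        rw [div_le_one (by positivity)]
        exact one_le_pow₀ h3
      linarith
    · refine prod_le_one (fun p hp => ?_) fun p hp => ?_
      · have h3 : (1 : ℝ) ≤ p := by
          exact_mod_cast (mem_Icc.1 (mem_sdiff.1 hp).1).1.trans' (by norm_num)
        have h4 : 1 / (p : ℝ) ^ 2 ≤ 1 := by
          rw [div_le_one (by positivity)]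
          exact one_le_pow₀ h3
        linarith
      · have h4 : 0 ≤ 1 / (p : ℝ) ^ 2 := by positivity
        linarith
  refine le_trans ?_ h2
  rw [h1 z hz]
  have hz0 : (0 : ℝ) < z := by exact_mod_cast hz
  rw [div_le_div_iff₀ (by norm_num) (by positivity)]
  linarith

private theorem Prd_sg (h : ℕ) (hh : h ≠ 0) (T : Finset ℕ) (hT : ∀ p ∈ T, p.Prime ∧ p ∣ h) :
    ∏ p ∈ T, (1 + 1 / (p : ℝ)) ≤ sg h := by
  classical
  rw [prod_one_add]
  unfold sg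
  have hpr : ∀ U ∈ T.powerset, ∀ p ∈ U, p.Prime := fun U hU p hp => (hT p (mem_powerset.1 hU hp)).1
  have hinj : Set.InjOn (fun U : Finset ℕ => ∏ p ∈ U, p) (T.powerset : Set (Finset ℕ)) := by
    intro U hU V hV hUV
    have h1 := Nat.primeFactors_prod (hpr U hU)
    have h2 := Nat.primeFactors_prod (hpr V hV)
    rw [← h1, ← h2]
    exact congrArg Nat.primeFactors hUV
  have e1 : ∑ U ∈ T.powerset, ∏ p ∈ U, 1 / (p : ℝ) =
      ∑ d ∈ T.powerset.image (fun U : Finset ℕ => ∏ p ∈ U, p), 1 / (d : ℝ) := by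
    rw [sum_image hinj]
    refine sum_congr rfl fun U _ => ?_
    push_cast
    rw [prod_div_distrib, prod_const_one]
  rw [e1]
  refine sum_le_sum_of_subset_of_nonneg ?_ fun d _ _ => by positivity
  intro d hd
  rw [mem_image] at hd
  obtain ⟨U, hU, rfl⟩ := hd
  rw [Nat.mem_divisors]
  refine ⟨?_, hh⟩
  have h3 : ∏ p ∈ U, p ∣ ∏ p ∈ h.primeFactors, p := by
    refine prod_dvd_prod_of_subset _ _ _ fun p hp => ?_
    have h4 := hT p (mem_powerset.1 hU hp)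
    exact Nat.mem_primeFactors.2 ⟨h4.1, h4.2, hh⟩
  exact h3.trans (Nat.prod_primeFactors_dvd h)

private theorem Prd_pt (q h p : ℕ) (hp : p.Prime) :
    1 - gq q h p ≤ (1 - 1 / (p : ℝ)) ^ 2 * (if p = q then 4 else 1) *
      (if p ∣ h then (1 + 1 / (p : ℝ)) * (1 - 1 / (p : ℝ) ^ 2)⁻¹ else 1) := by
  have h2 : (2 : ℝ) ≤ p := by exact_mod_cast hp.two_le
  obtain ⟨t, ht⟩ : ∃ t : ℝ, t = 1 / (p : ℝ) := ⟨_, rfl⟩
  have ht0 : 0 < t := by rw [ht]; positivity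
  have ht1 : t ≤ 1 / 2 := by
    rw [ht]
    exact one_div_le_one_div_of_le (by norm_num) h2
  have ht2 : 1 / (p : ℝ) ^ 2 = t ^ 2 := by
    rw [ht]
    ring
  have hw : (1 + t) * (1 - t ^ 2)⁻¹ = (1 - t)⁻¹ := by
    have h3 : 1 - t ^ 2 = (1 + t) * (1 - t) := by ring
    rw [h3, mul_inv, ← mul_assoc, mul_inv_cancel₀ (by linarith), one_mul]
  rw [← ht, ht2, hw]
  unfold gq gh
  by_cases hq : p = q
  · rw [if_pos hq, if_pos hq]
    have h4 : 1 ≤ (1 - t) ^ 2 * 4 := by nlinarith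
    by_cases hd : p ∣ h
    · rw [if_pos hd, sub_zero]
      have h5 : 1 ≤ (1 - t)⁻¹ := by
        rw [one_le_inv₀ (by linarith)]
        linarith
      nlinarith
    · rw [if_neg hd, sub_zero, mul_one]
      exact h4
  · rw [if_neg hq, if_neg hq, mul_one]
    by_cases hd : p ∣ h
    · rw [if_pos hd, if_pos hd, ← ht, pow_two, mul_assoc, mul_inv_cancel₀ (by linarith), mul_one]
    · rw [if_neg hd, if_neg hd, mul_one, show 2 / (p : ℝ) = 2 * t by rw [ht]; ring]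
      nlinarith

theorem prod_bound (q h z : ℕ) (hh : h ≠ 0) (hz : 1 ≤ z) :
    ∏ p ∈ PZ z, (1 - gq q h p) ≤ 8 * (∏ p ∈ PZ z, (1 - 1 / (p : ℝ))) ^ 2 * sg h := by
  classical
  have hpr : ∀ p ∈ PZ z, p.Prime := fun p hp => (mem_filter.1 hp).2
  have hpos : ∀ p ∈ PZ z, 0 ≤ 1 - gq q h p := by
    intro p hp
    have h3 : (2 : ℝ) ≤ p := by exact_mod_cast (hpr p hp).two_le
    unfold gq gh
    split_ifs with h4 h5
    · norm_num
    · have : 1 / (p : ℝ) ≤ 1 / 2 := one_div_le_one_div_of_le (by norm_num) h3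
      linarith
    · have : 2 / (p : ℝ) ≤ 1 := by
        rw [div_le_one (by linarith)]
        exact h3
      linarith
  refine (prod_le_prod hpos fun p hp => Prd_pt q h p (hpr p hp)).trans ?_
  rw [prod_mul_distrib, prod_mul_distrib, prod_pow]
  have hV : 0 ≤ (∏ p ∈ PZ z, (1 - 1 / (p : ℝ))) ^ 2 := sq_nonneg _
  have hA : ∏ p ∈ PZ z, (if p = q then (4 : ℝ) else 1) ≤ 4 := by
    rw [prod_ite_eq']
    split_ifs <;> norm_num
  have hA0 : 0 ≤ ∏ p ∈ PZ z, (if p = q then (4 : ℝ) else 1) :=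
    prod_nonneg fun p _ => by split_ifs <;> norm_num
  have hsq0 : ∀ p ∈ PZ z, 0 < 1 - 1 / (p : ℝ) ^ 2 := by
    intro p hp
    have h3 : (2 : ℝ) ≤ p := by exact_mod_cast (hpr p hp).two_le
    have h4 : 1 / (p : ℝ) ^ 2 < 1 := by
      rw [div_lt_one (by positivity)]
      nlinarith
    linarith
  have hB : ∏ p ∈ PZ z, (if p ∣ h then (1 + 1 / (p : ℝ)) * (1 - 1 / (p : ℝ) ^ 2)⁻¹ else 1) ≤ sg h * 2 := by
    have e1 : ∏ p ∈ PZ z, (if p ∣ h then (1 + 1 / (p : ℝ)) * (1 - 1 / (p : ℝ) ^ 2)⁻¹ else 1) ≤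
        ∏ p ∈ PZ z, ((if p ∣ h then (1 + 1 / (p : ℝ)) else 1) * (1 - 1 / (p : ℝ) ^ 2)⁻¹) := by
      refine prod_le_prod (fun p hp => ?_) fun p hp => ?_
      · have := hsq0 p hp
        split_ifs <;> positivity
      · split_ifs
        · exact le_rfl
        · rw [one_mul, one_le_inv₀ (hsq0 p hp)]
          have : 0 ≤ 1 / (p : ℝ) ^ 2 := by positivity
          linarith
    refine e1.trans ?_
    rw [prod_mul_distrib, prod_inv_distrib, ← prod_filter]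
    refine mul_le_mul (Prd_sg h hh _ fun p hp => ?_) ?_ ?_ ?_
    · rw [mem_filter] at hp
      exact ⟨hpr p hp.1, hp.2⟩
    · have h5 := Prd_sq z hz
      rw [inv_le_comm₀ (by linarith) (by norm_num)]
      norm_num at h5 ⊢
      exact h5
    · exact inv_nonneg.2 (prod_nonneg fun p hp => (hsq0 p hp).le)
    · unfold sg
      positivity
  have hB0 : 0 ≤ ∏ p ∈ PZ z, (if p ∣ h then (1 + 1 / (p : ℝ)) * (1 - 1 / (p : ℝ) ^ 2)⁻¹ else 1) := by
    refine prod_nonneg fun p hp => ?_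
    have := hsq0 p hp
    split_ifs <;> positivity
  calc (∏ p ∈ PZ z, (1 - 1 / (p : ℝ))) ^ 2 * (∏ p ∈ PZ z, (if p = q then (4 : ℝ) else 1)) *
        ∏ p ∈ PZ z, (if p ∣ h then (1 + 1 / (p : ℝ)) * (1 - 1 / (p : ℝ) ^ 2)⁻¹ else 1)
      ≤ (∏ p ∈ PZ z, (1 - 1 / (p : ℝ))) ^ 2 * 4 * (sg h * 2) :=
        mul_le_mul (mul_le_mul_of_nonneg_left hA hV) hB hB0 (mul_nonneg hV (by norm_num))
    _ = 8 * (∏ p ∈ PZ z, (1 - 1 / (p : ℝ))) ^ 2 * sg h := by ring

end Pool.Agent.Lib.MP_252578_ntA
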