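import Pool.Agent.Lib.MP_252578_ntA.Prd
import Pool.Agent.Lib.MP_42948a_nt.TQ.A2
import Pool.Agent.Lib.MP_42948a_nt.TQ.A3
import Pool.Agent.Lib.MP_42948a_nt.TQ.A4
import Pool.Agent.Lib.MP_d57abb_nt.KT.SvA

/-!
# The sieve bound for the primes `p ≤ N` in a residue class with `p + h` prime
-/

set_option autoImplicit false

namespace Pool.Agent.Lib.MP_252578_ntA

open Finset
open Pool.Agent.Lib.MP_42948a_nt.OA (PP)
open Pool.Agent.Lib.MP_42948a_nt.TQ

/-- the primes `p ≤ N` in the class `a` modulo `q` with `p + h` prime -/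
def ZZ (q N h : ℕ) (a : ZMod q) : Finset ℕ :=
  (Icc 1 N).filter (fun p : ℕ => p.Prime ∧ (p + h).Prime ∧ (p : ZMod q) = a)

private theorem Sv_inj (h : ℕ) : Set.InjOn (fun n : ℕ => n * (n + h)) {n : ℕ | 0 < n} := by
  intro a ha b hb hab
  have hab' : a * (a + h) = b * (b + h) := hab
  rw [Set.mem_setOf_eq] at ha hb
  rcases lt_trichotomy a b with h1 | h1 | h1
  · exfalso
    have h2 : a * (a + h) < b * (b + h) :=
      Nat.mul_lt_mul'' h1 (by omega)
    omega
  · exact h1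
  · exfalso
    have h2 : b * (b + h) < a * (a + h) :=
      Nat.mul_lt_mul'' h1 (by omega)
    omega

private theorem Sv_filter (N q r h : ℕ) (P : ℕ → Prop) [DecidablePred P] :
    ((((Ioc 0 N).filter (fun n => n ≡ r [MOD q])).image (fun n : ℕ => n * (n + h))).filter P).card =
      ((Ioc 0 N).filter (fun n => n ≡ r [MOD q] ∧ P (n * (n + h)))).card := by
  rw [filter_image, filter_filter]
  refine card_image_of_injOn fun a ha b hb hab => ?_
  rw [coe_filter, Set.mem_setOf_eq, mem_Ioc] at ha hb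
  exact Sv_inj h ha.1.1 hb.1.1 hab

private theorem Sv_adm (z q h : ℕ) (h2 : 2 ∣ h) : Adm z (gq q h) := by
  intro p hp
  have hpp : p.Prime := (mem_filter.1 hp).2
  have hp2 : (2 : ℝ) ≤ p := by exact_mod_cast hpp.two_le
  have hp0 : (0 : ℝ) < p := by linarith
  unfold gq gh
  split_ifs with h3 h4
  · exact ⟨le_rfl, by norm_num, by positivity⟩
  · refine ⟨by positivity, ?_, ?_⟩
    · have : 1 / (p : ℝ) ≤ 1 / 2 := one_div_le_one_div_of_le (by norm_num) hp2
      linarith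
    · exact div_le_div_of_nonneg_right (by norm_num) hp0.le
  · have hp3 : (3 : ℝ) ≤ p := by
      have h5 : p ≠ 2 := fun h6 => h4 (h6 ▸ h2)
      have h6 : 3 ≤ p := by
        have := hpp.two_le
        omega
      exact_mod_cast h6
    refine ⟨by positivity, ?_, le_rfl⟩
    rw [div_le_div_iff₀ hp0 (by norm_num)]
    linarith

private theorem Sv_two_pow (T : Finset ℕ) (hT : ∀ p ∈ T, p.Prime) : 2 ^ T.card ≤ ∏ p ∈ T, p := by
  rw [← prod_const]
  exact prod_le_prod' fun p hp => (hT p hp).two_le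

private theorem Sv_err {q : ℕ} (hq : q.Prime) (z K N h : ℕ) (a : ZMod q) (ha : a ≠ 0) (hah : a + h ≠ 0)
    (T : Finset ℕ) (hT : T ∈ TT z K) :
    |∑ n ∈ (((Ioc 0 N).filter (fun n => n ≡ a.val [MOD q])).image (fun n : ℕ => n * (n + h))).filter
        (fun n : ℕ => ∀ p ∈ T, p ∣ n), (1 : ℝ) - (N : ℝ) / q * ∏ p ∈ T, gq q h p| ≤ (z : ℝ) ^ K := by
  have : NeZero q := ⟨hq.ne_zero⟩
  unfold TT at hT
  rw [mem_filter, mem_powerset] at hT
  have hTp : ∀ p ∈ T, p.Prime := fun p hp => (mem_filter.1 (hT.1 hp)).2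
  rw [sum_const, nsmul_eq_mul, mul_one, Sv_filter]
  change |(((cls N q a.val h T).card : ℕ) : ℝ) - _| ≤ _
  by_cases hqT : q ∈ T
  · have h1 : ∏ p ∈ T, gq q h p = 0 := by
      refine prod_eq_zero hqT ?_
      unfold gq
      rw [if_pos rfl]
    have h2 : cls N q a.val h T = ∅ := by
      unfold cls
      rw [filter_eq_empty_iff]
      intro n _ h3
      have h4 := h3.2 q hqT
      have h5 : ((n : ℕ) : ZMod q) = a := by
        have h6 := (ZMod.natCast_eq_natCast_iff n a.val q).2 h3.1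
        rw [h6, ZMod.natCast_zmod_val]
      have h7 : (((n * (n + h) : ℕ)) : ZMod q) = 0 := (ZMod.natCast_eq_zero_iff _ _).2 h4
      push_cast at h7
      rw [h5] at h7
      have : Fact q.Prime := ⟨hq⟩
      rcases mul_eq_zero.1 h7 with h8 | h8
      · exact ha h8
      · exact hah h8
    rw [h1, h2, card_empty, Nat.cast_zero, mul_zero, sub_zero, abs_zero]
    positivity
  · have h1 : ∏ p ∈ T, gq q h p = ∏ p ∈ T, gh h p := by
      refine prod_congr rfl fun p hp => ?_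
      unfold gq
      rw [if_neg]
      rintro rfl
      exact hqT hp
    rw [h1]
    refine (cls_card N h T hTp q a.val hq.pos fun p hp hd => ?_).trans ?_
    · exact hqT (((Nat.prime_dvd_prime_iff_eq (hTp p hp) hq).1 hd) ▸ hp)
    · have h3 : 2 ^ T.card ≤ z ^ K := (Sv_two_pow T hTp).trans hT.2
      exact_mod_cast h3

theorem sieve_pairs : ∃ K : ℕ, 1 ≤ K ∧ ∀ z : ℕ, 2 ≤ z → ∀ q N h : ℕ, q.Prime → 1 ≤ h → 2 ∣ h →
    ∀ a : ZMod q, a ≠ 0 → a + h ≠ 0 →
      ((ZZ q N h a).card : ℝ) ≤ z + 16 * ((N : ℝ) / q) * (1 / Real.log z) ^ 2 * sg h + (z : ℝ) ^ (2 * K) := by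
  classical
  obtain ⟨K, hK⟩ := fund 1 one_pos le_rfl
  refine ⟨K + 1, by omega, fun z hz q N h hq hh h2 a ha hah => ?_⟩
  have : NeZero q := ⟨hq.ne_zero⟩
  obtain ⟨u, l, hF⟩ := hK z hz
  obtain ⟨A, hA⟩ : ∃ A : Finset ℕ, A = ((Ioc 0 N).filter (fun n => n ≡ a.val [MOD q])).image
      (fun n : ℕ => n * (n + h)) := ⟨_, rfl⟩
  have hX : (0 : ℝ) ≤ (N : ℝ) / q := by positivity
  have hs := sieve2 hF A (fun _ => 1) (gq q h) ((N : ℝ) / q) (fun _ => (z : ℝ) ^ K)
    (fun _ _ => zero_le_one) (Sv_adm z q h h2) hX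
    (fun T hT => by rw [hA]; exact Sv_err hq z K N h a ha hah T hT)
  have hs1 := (abs_le.1 hs).2
  rw [sum_const, sum_const, nsmul_eq_mul, nsmul_eq_mul, mul_one, one_mul] at hs1
  -- the rough numbers
  have hcard : (ZZ q N h a).card ≤ z + (A.filter (fun n : ℕ => ∀ p ∈ PP z, ¬ p ∣ n)).card := by
    rw [hA, Sv_filter]
    have h3 : ZZ q N h a ⊆ Icc 1 z ∪ (Ioc 0 N).filter (fun n => n ≡ a.val [MOD q] ∧
        ∀ p ∈ PP z, ¬ p ∣ n * (n + h)) := by
      intro p hp
      unfold ZZ at hp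
      rw [mem_filter, mem_Icc] at hp
      obtain ⟨⟨hp1, hpN⟩, hpp, hph, hpa⟩ := hp
      rw [mem_union, mem_Icc, mem_filter, mem_Ioc]
      by_cases hpz : p ≤ z
      · exact Or.inl ⟨hp1, hpz⟩
      · refine Or.inr ⟨⟨by omega, hpN⟩, ?_, fun l hl hd => ?_⟩
        · rw [← ZMod.natCast_eq_natCast_iff, hpa, ZMod.natCast_zmod_val]
        · unfold PP at hl
          rw [mem_filter, mem_Icc] at hl
          rcases hl.2.dvd_mul.1 hd with h4 | h4
          · have := (Nat.prime_dvd_prime_iff_eq hl.2 hpp).1 h4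
            omega
          · have := (Nat.prime_dvd_prime_iff_eq hl.2 hph).1 h4
            omega
    refine (card_le_card h3).trans ((card_union_le _ _).trans ?_)
    rw [Nat.card_Icc]
    simp
  have hTT := card_TT z K
  have hzr : (2 : ℝ) ≤ z := by exact_mod_cast hz
  have hlog : 0 < Real.log z := Real.log_pos (by linarith)
  have hV := Pool.Agent.Lib.MP_d57abb_nt.KT.mert z hz
  have hV0 : 0 ≤ ∏ p ∈ PZ z, (1 - 1 / (p : ℝ)) := by
    refine prod_nonneg fun p hp => ?_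
    have hp2 : (2 : ℝ) ≤ p := by exact_mod_cast (mem_filter.1 hp).2.two_le
    have : 1 / (p : ℝ) ≤ 1 / 2 := one_div_le_one_div_of_le (by norm_num) hp2
    linarith
  have hsg : 0 ≤ sg h := by
    unfold sg
    positivity
  have hP : ∏ p ∈ PP z, (1 - gq q h p) ≤ 8 * (1 / Real.log z) ^ 2 * sg h := by
    refine (prod_bound q h z (by omega) (by omega)).trans ?_
    refine mul_le_mul_of_nonneg_right ?_ hsg
    refine mul_le_mul_of_nonneg_left ?_ (by norm_num)
    exact pow_le_pow_left₀ hV0 hV 2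
  have hc : ((ZZ q N h a).card : ℝ) ≤ z + ((A.filter (fun n : ℕ => ∀ p ∈ PP z, ¬ p ∣ n)).card : ℝ) := by
    exact_mod_cast hcard
  have hE : ((TT z K).card : ℝ) * (z : ℝ) ^ K ≤ (z : ℝ) ^ (2 * (K + 1)) := by
    calc ((TT z K).card : ℝ) * (z : ℝ) ^ K ≤ (z : ℝ) ^ K * (z : ℝ) ^ K :=
          mul_le_mul_of_nonneg_right hTT (by positivity)
      _ = (z : ℝ) ^ (2 * K) := by rw [← pow_add]; congr 1; ring
      _ ≤ (z : ℝ) ^ (2 * (K + 1)) := pow_le_pow_right₀ (by linarith) (by omega)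
  have hM : (N : ℝ) / q * ∏ p ∈ PP z, (1 - gq q h p) ≤ (N : ℝ) / q * (8 * (1 / Real.log z) ^ 2 * sg h) :=
    mul_le_mul_of_nonneg_left hP hX
  have e1 : 16 * ((N : ℝ) / q) * (1 / Real.log z) ^ 2 * sg h =
      (N : ℝ) / q * (8 * (1 / Real.log z) ^ 2 * sg h) + (N : ℝ) / q * (8 * (1 / Real.log z) ^ 2 * sg h) := by ring
  rw [e1]
  linarith

end Pool.Agent.Lib.MP_252578_ntA
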